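import Mathlib

open Filter Topology Set MeasureTheory Finset

namespace TH949.MS

lemma norm_cpow_nat' {t : ℝ} (ht : 0 < t) (s : ℂ) : ‖(t : ℂ) ^ s‖ = t ^ s.re :=
  Complex.norm_cpow_eq_rpow_re_of_pos ht s

theorem cpow_int (s : ℂ) (hs : 0 < s.re) {x y : ℝ} (hx : 0 < x) (hxy : x ≤ y) :
    ∫ t in x..y, (t : ℂ) ^ (-s - 1) = ((x : ℂ) ^ (-s) - (y : ℂ) ^ (-s)) / s := by
  have hs0 : s ≠ 0 := by
    intro h; rw [h] at hs; simp at hs
  have h0 : (0 : ℝ) ∉ Set.uIcc x y := by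
    rw [Set.uIcc_of_le hxy, Set.mem_Icc]; push Not; intro h; linarith
  rw [integral_cpow (Or.inr ⟨?_, h0⟩)]
  · rw [show -s - 1 + 1 = -s by ring, div_eq_div_iff (neg_ne_zero.2 hs0) hs0]; ring
  · intro h
    apply hs0
    have : -s = 0 := by linear_combination h
    simpa using this

theorem cpow_diff (s : ℂ) (hs : 0 < s.re) {n : ℕ} (hn : 1 ≤ n) :
    ‖(n : ℂ) ^ (-s) - ((n + 1 : ℕ) : ℂ) ^ (-s)‖ ≤
      ‖s‖ / s.re * ((n : ℝ) ^ (-s.re) - ((n + 1 : ℕ) : ℝ) ^ (-s.re)) ∧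
    ‖(n : ℂ) ^ (-s) - ((n + 1 : ℕ) : ℂ) ^ (-s)‖ ≤ ‖s‖ * (n : ℝ) ^ (-s.re - 1) := by
  have hn0 : (0 : ℝ) < n := by exact_mod_cast hn
  have hnn : (n : ℝ) ≤ ((n + 1 : ℕ) : ℝ) := by push_cast; linarith
  have hs0 : s ≠ 0 := by
    intro h; rw [h] at hs; simp at hs
  have h1 := cpow_int s hs hn0 hnn
  have h2 : (n : ℂ) ^ (-s) - ((n + 1 : ℕ) : ℂ) ^ (-s) =
      s * ∫ t in (n : ℝ)..((n + 1 : ℕ) : ℝ), (t : ℂ) ^ (-s - 1) := by
    rw [h1, mul_div_cancel₀ _ hs0]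
    norm_cast
  have h3 : ‖∫ t in (n : ℝ)..((n + 1 : ℕ) : ℝ), (t : ℂ) ^ (-s - 1)‖ ≤
      ∫ t in (n : ℝ)..((n + 1 : ℕ) : ℝ), t ^ (-s.re - 1) := by
    refine (intervalIntegral.norm_integral_le_integral_norm hnn).trans (le_of_eq ?_)
    refine intervalIntegral.integral_congr fun t ht => ?_
    rw [Set.uIcc_of_le hnn] at ht
    have ht0 : 0 < t := lt_of_lt_of_le hn0 ht.1
    show ‖(t : ℂ) ^ (-s - 1)‖ = _
    rw [norm_cpow_nat' ht0]; simp
  have h4 : ∫ t in (n : ℝ)..((n + 1 : ℕ) : ℝ), t ^ (-s.re - 1) =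
      1 / s.re * ((n : ℝ) ^ (-s.re) - ((n + 1 : ℕ) : ℝ) ^ (-s.re)) := by
    have h0 : (0 : ℝ) ∉ Set.uIcc (n : ℝ) ((n + 1 : ℕ) : ℝ) := by
      rw [Set.uIcc_of_le hnn, Set.mem_Icc]; push Not; intro h; linarith
    rw [integral_rpow (Or.inr ⟨by linarith, h0⟩), show -s.re - 1 + 1 = -s.re by ring]
    field_simp
    ring
  have h5 : ‖∫ t in (n : ℝ)..((n + 1 : ℕ) : ℝ), (t : ℂ) ^ (-s - 1)‖ ≤
      (n : ℝ) ^ (-s.re - 1) * |((n + 1 : ℕ) : ℝ) - n| := by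
    refine intervalIntegral.norm_integral_le_of_norm_le_const fun t ht => ?_
    rw [Set.uIoc_of_le hnn] at ht
    have ht0 : 0 < t := hn0.trans ht.1
    rw [norm_cpow_nat' ht0]
    have : (-s - 1).re = -s.re - 1 := by simp
    rw [this]
    exact Real.rpow_le_rpow_of_nonpos hn0 ht.1.le (by linarith)
  have h6 : |((n + 1 : ℕ) : ℝ) - n| = 1 := by push_cast; simp
  rw [h6, mul_one] at h5
  rw [h2, norm_mul]
  constructor
  · calc ‖s‖ * _ ≤ ‖s‖ * (1 / s.re * ((n : ℝ) ^ (-s.re) - ((n + 1 : ℕ) : ℝ) ^ (-s.re))) := by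
          rw [← h4]; exact mul_le_mul_of_nonneg_left h3 (norm_nonneg _)
      _ = _ := by ring
  · exact mul_le_mul_of_nonneg_left h5 (norm_nonneg _)

/-- Partial sums. -/
noncomputable def SS (b : ℕ → ℂ) (n : ℕ) : ℂ := ∑ k ∈ Finset.Icc 1 n, b k

theorem parts (b f : ℕ → ℂ) (N : ℕ) : ∑ m ∈ Finset.Icc 1 N, b m * f m =
    SS b N * f (N + 1) + ∑ n ∈ Finset.range N, SS b (n + 1) * (f (n + 1) - f (n + 2)) := by
  induction N with
  | zero => simp [SS]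
  | succ N ih =>
    rw [Finset.sum_Icc_succ_top (by omega), ih, Finset.sum_range_succ]
    have : SS b (N + 1) = SS b N + b (N + 1) := by
      unfold SS; rw [Finset.sum_Icc_succ_top (by omega)]
    rw [this]; ring

/-- the terms of the Abel sum -/
noncomputable def HH (b : ℕ → ℂ) (n : ℕ) (s : ℂ) : ℂ :=
  SS b (n + 1) * (((n + 1 : ℕ) : ℂ) ^ (-s) - ((n + 2 : ℕ) : ℂ) ^ (-s))

theorem HH_le {b : ℕ → ℂ} {B : ℝ} (hB : ∀ n, ‖SS b n‖ ≤ B) (n : ℕ) {s : ℂ} (hs : 0 < s.re) :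
    ‖HH b n s‖ ≤ B * (‖s‖ * ((n + 1 : ℕ) : ℝ) ^ (-s.re - 1)) := by
  unfold HH
  rw [norm_mul]
  exact mul_le_mul (hB _) (cpow_diff s hs (by omega)).2 (norm_nonneg _) ((norm_nonneg _).trans (hB 0))

theorem HH_summ {b : ℕ → ℂ} {B : ℝ} (hB : ∀ n, ‖SS b n‖ ≤ B) {s : ℂ} (hs : 0 < s.re) :
    Summable fun n => HH b n s := by
  refine Summable.of_norm_bounded (g := fun n : ℕ => B * (‖s‖ * ((n + 1 : ℕ) : ℝ) ^ (-s.re - 1))) ?_
    fun n => HH_le hB n hs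
  refine Summable.mul_left _ (Summable.mul_left _ ?_)
  exact (summable_nat_add_iff 1).2 (Real.summable_nat_rpow.2 (by linarith : -s.re - 1 < -1))

theorem HH_diff {b : ℕ → ℂ} {B : ℝ} (hB : ∀ n, ‖SS b n‖ ≤ B) :
    DifferentiableOn ℂ (fun s => ∑' n, HH b n s) {s | 0 < s.re} := by
  intro s0 hs0
  simp only [Set.mem_ofPred_eq] at hs0
  set U : Set ℂ := {s | s0.re / 2 < s.re} ∩ Metric.ball 0 (‖s0‖ + 1) with hU
  have hUo : IsOpen U := (isOpen_lt continuous_const Complex.continuous_re).inter Metric.isOpen_ball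
  have hmem : s0 ∈ U := ⟨by simp only [Set.mem_ofPred_eq]; linarith, by simp⟩
  have hB0 : 0 ≤ B := (norm_nonneg _).trans (hB 0)
  have h := Complex.differentiableOn_tsum_of_summable_norm (F := fun n s => HH b n s) (U := U)
    (u := fun n : ℕ => B * ((‖s0‖ + 1) * ((n + 1 : ℕ) : ℝ) ^ (-(s0.re / 2) - 1)))
    (Summable.mul_left _ (Summable.mul_left _
      ((summable_nat_add_iff 1).2 (Real.summable_nat_rpow.2 (by linarith : -(s0.re / 2) - 1 < -1)))))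
    (fun n => by
      unfold HH
      refine Differentiable.differentiableOn ?_
      refine (differentiable_const _).mul (Differentiable.sub ?_ ?_)
      · intro s
        exact (differentiableAt_id.neg).const_cpow (Or.inl (by exact_mod_cast Nat.succ_ne_zero n))
      · intro s
        exact (differentiableAt_id.neg).const_cpow (Or.inl (by exact_mod_cast Nat.succ_ne_zero (n + 1))))
    hUo
    (fun n s hs => by
      obtain ⟨h1, h2⟩ := hs
      simp only [Set.mem_ofPred_eq] at h1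
      have h3 : ‖s‖ < ‖s0‖ + 1 := by simpa using h2
      refine (HH_le hB n (by linarith)).trans ?_
      refine mul_le_mul_of_nonneg_left ?_ hB0
      refine mul_le_mul h3.le ?_ (by positivity) (by positivity)
      exact Real.rpow_le_rpow_of_exponent_le (by push_cast; linarith [Nat.cast_nonneg (α := ℝ) n])
        (by linarith))
  exact ((h s0 hmem).differentiableAt (hUo.mem_nhds hmem)).differentiableWithinAt

theorem tail {b : ℕ → ℂ} {B : ℝ} (hB : ∀ n, ‖SS b n‖ ≤ B) {s : ℂ} (hs : 0 < s.re) (N M : ℕ) :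
    ‖∑ n ∈ Finset.range (N + M), HH b n s - ∑ n ∈ Finset.range N, HH b n s‖ ≤
      B * (‖s‖ / s.re) * (((N + 1 : ℕ) : ℝ) ^ (-s.re) - ((N + M + 1 : ℕ) : ℝ) ^ (-s.re)) := by
  have hB0 : 0 ≤ B := (norm_nonneg _).trans (hB 0)
  induction M with
  | zero => simp
  | succ M ih =>
    rw [show N + (M + 1) = (N + M) + 1 by ring, Finset.sum_range_succ]
    have h1 : ‖HH b (N + M) s‖ ≤ B * (‖s‖ / s.re) *
        (((N + M + 1 : ℕ) : ℝ) ^ (-s.re) - ((N + M + 1 + 1 : ℕ) : ℝ) ^ (-s.re)) := by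
      unfold HH
      rw [norm_mul, mul_assoc]
      exact mul_le_mul (hB _) (cpow_diff s hs (by omega)).1 (norm_nonneg _) hB0
    calc _ = ‖(∑ n ∈ Finset.range (N + M), HH b n s - ∑ n ∈ Finset.range N, HH b n s) +
          HH b (N + M) s‖ := by congr 1; ring
      _ ≤ _ := norm_add_le _ _
      _ ≤ _ := add_le_add ih h1
      _ = _ := by ring

theorem partial_bound {b : ℕ → ℂ} {B : ℝ} (hB : ∀ n, ‖SS b n‖ ≤ B) {G : ℂ → ℂ}
    (hG : DifferentiableOn ℂ G {s | 0 < s.re})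
    (hEq : ∀ s : ℂ, 1 < s.re → Tendsto (fun N : ℕ => ∑ m ∈ Finset.Icc 1 N, b m * (m : ℂ) ^ (-s))
      atTop (𝓝 (G s))) {ρ : ℂ} (hρ : 0 < ρ.re) (h0 : G ρ = 0) (N : ℕ) :
    ‖∑ m ∈ Finset.Icc 1 N, b m * (m : ℂ) ^ (-ρ)‖ ≤
      (B + B * (‖ρ‖ / ρ.re)) * ((N + 1 : ℕ) : ℝ) ^ (-ρ.re) := by
  have hB0 : 0 ≤ B := (norm_nonneg _).trans (hB 0)
  have hU : IsOpen {s : ℂ | 0 < s.re} := isOpen_lt continuous_const Complex.continuous_re
  have hPf : ∀ (s : ℂ) (N : ℕ), ∑ m ∈ Finset.Icc 1 N, b m * (m : ℂ) ^ (-s) =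
      SS b N * ((N + 1 : ℕ) : ℂ) ^ (-s) + ∑ n ∈ Finset.range N, HH b n s := fun s N =>
    parts b (fun m => (m : ℂ) ^ (-s)) N
  have hSz : ∀ s : ℂ, 0 < s.re → ∀ N : ℕ, ‖SS b N * ((N + 1 : ℕ) : ℂ) ^ (-s)‖ ≤
      B * ((N + 1 : ℕ) : ℝ) ^ (-s.re) := by
    intro s hs N
    rw [norm_mul]
    have : ‖((N + 1 : ℕ) : ℂ) ^ (-s)‖ = ((N + 1 : ℕ) : ℝ) ^ (-s.re) := by
      have := norm_cpow_nat' (t := ((N + 1 : ℕ) : ℝ)) (by positivity) (-s)
      simpa using this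
    rw [this]
    exact mul_le_mul_of_nonneg_right (hB _) (by positivity)
  have hz : ∀ s : ℂ, 0 < s.re → Tendsto (fun N : ℕ => ((N + 1 : ℕ) : ℝ) ^ (-s.re)) atTop (𝓝 0) := by
    intro s hs
    exact (tendsto_rpow_neg_atTop hs).comp
      (tendsto_natCast_atTop_atTop.comp (tendsto_add_atTop_nat 1))
  have hlim : ∀ s : ℂ, 0 < s.re → Tendsto (fun N : ℕ => ∑ m ∈ Finset.Icc 1 N, b m * (m : ℂ) ^ (-s))
      atTop (𝓝 (∑' n, HH b n s)) := by
    intro s hs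
    have h1 : Tendsto (fun N : ℕ => SS b N * ((N + 1 : ℕ) : ℂ) ^ (-s)) atTop (𝓝 0) := by
      refine squeeze_zero_norm (hSz s hs) ?_
      simpa using (hz s hs).const_mul B
    have h2 := h1.add (HH_summ hB hs).hasSum.tendsto_sum_nat
    rw [zero_add] at h2
    exact h2.congr fun N => (hPf s N).symm
  have hEqOn : Set.EqOn (fun s => ∑' n, HH b n s) G {s : ℂ | 0 < s.re} := by
    refine AnalyticOnNhd.eqOn_of_preconnected_of_eventuallyEq (z₀ := 2)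
      ((HH_diff hB).analyticOnNhd hU) (hG.analyticOnNhd hU) ?_ (by simp) ?_
    · exact (convex_halfSpace_re_gt 0).isPreconnected
    · have : {s : ℂ | 1 < s.re} ∈ 𝓝 (2 : ℂ) :=
        (isOpen_lt continuous_const Complex.continuous_re).mem_nhds (by simp)
      filter_upwards [this] with s hs
      change 1 < s.re at hs
      exact tendsto_nhds_unique (hlim s (by linarith)) (hEq s hs)
  have hH0 : ∑' n, HH b n ρ = 0 := by
    have := hEqOn (show ρ ∈ {s : ℂ | 0 < s.re} from hρ)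
    rw [h0] at this
    exact this
  have h1 : ‖∑ n ∈ Finset.range N, HH b n ρ‖ ≤ B * (‖ρ‖ / ρ.re) * ((N + 1 : ℕ) : ℝ) ^ (-ρ.re) := by
    have h2 : Tendsto (fun M : ℕ => ‖∑ n ∈ Finset.range (N + M), HH b n ρ -
        ∑ n ∈ Finset.range N, HH b n ρ‖) atTop (𝓝 ‖0 - ∑ n ∈ Finset.range N, HH b n ρ‖) := by
      refine (Tendsto.sub ?_ tendsto_const_nhds).norm
      have := (HH_summ hB hρ).hasSum.tendsto_sum_nat
      rw [hH0] at this
      exact this.comp (tendsto_atTop_mono (fun M => Nat.le_add_left M N) tendsto_id)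
    have h3 := le_of_tendsto h2 (Eventually.of_forall fun M => (tail hB hρ N M).trans
      (show _ ≤ B * (‖ρ‖ / ρ.re) * ((N + 1 : ℕ) : ℝ) ^ (-ρ.re) from by
        refine mul_le_mul_of_nonneg_left ?_ (by positivity)
        have : (0 : ℝ) ≤ ((N + M + 1 : ℕ) : ℝ) ^ (-ρ.re) := by positivity
        linarith))
    simpa using h3
  rw [hPf]
  calc _ ≤ _ := norm_add_le _ _
    _ ≤ _ := add_le_add (hSz ρ hρ N) h1
    _ = _ := by ring

end TH949.MS
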