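import Mathlib

open Filter Topology Set MeasureTheory Finset

namespace TH949.MS

/-- `e(x)`. -/
noncomputable def ee (x : ℝ) : ℂ := Complex.exp (2 * Real.pi * Complex.I * x)

lemma ee_add (x y : ℝ) : ee (x + y) = ee x * ee y := by
  unfold ee; rw [← Complex.exp_add]; congr 1; push_cast; ring

lemma norm_ee (x : ℝ) : ‖ee x‖ = 1 := by
  unfold ee
  rw [show (2 * Real.pi * Complex.I * x : ℂ) = ((2 * Real.pi * x : ℝ) : ℂ) * Complex.I by push_cast; ring]
  exact Complex.norm_exp_ofReal_mul_I _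

lemma cont_ee : Continuous ee := by unfold ee; fun_prop

lemma conj_ee (x : ℝ) : (starRingEnd ℂ) (ee x) = ee (-x) := by
  unfold ee
  rw [← Complex.exp_conj]
  congr 1
  have h2 : (starRingEnd ℂ) 2 = 2 := by
    rw [show (2 : ℂ) = ((2 : ℝ) : ℂ) by norm_num, Complex.conj_ofReal]
  simp [h2]

lemma ee_int (m : ℤ) : ∫ x in (0 : ℝ)..1, ee (m * x) = if m = 0 then 1 else 0 := by
  split_ifs with h
  · subst h; simp [ee]
  · have hc : (2 * Real.pi * Complex.I * m : ℂ) ≠ 0 := by
      simp [Real.pi_ne_zero, h]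
    have h1 : ∀ x : ℝ, ee (m * x) = Complex.exp ((2 * Real.pi * Complex.I * m : ℂ) * x) := by
      intro x; unfold ee; congr 1; push_cast; ring
    simp_rw [h1]
    rw [integral_exp_mul_complex hc]
    have h2 : Complex.exp (2 * Real.pi * Complex.I * m * (1 : ℝ)) = 1 := by
      rw [show (2 * Real.pi * Complex.I * m * (1 : ℝ) : ℂ) = m * (2 * Real.pi * Complex.I) by
        push_cast; ring]
      exact Complex.exp_int_mul_two_pi_mul_I m
    rw [h2]; simp

/-- the Dirichlet kernel -/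
noncomputable def DD (N : ℕ) (x : ℝ) : ℂ := ∑ j ∈ Finset.range N, ee (j * x)

lemma cont_DD (N : ℕ) : Continuous (DD N) := by
  unfold DD
  exact continuous_finsetSum _ fun j _ => cont_ee.comp (by fun_prop)

lemma DD_le (N : ℕ) (x : ℝ) : ‖DD N x‖ ≤ N := by
  unfold DD
  refine (norm_sum_le _ _).trans ?_
  simp [norm_ee]

/-- the Fejér kernel times `N` -/
noncomputable def KN (N : ℕ) (x : ℝ) : ℝ := ‖DD N x‖ ^ 2

lemma KN_nonneg (N : ℕ) (x : ℝ) : 0 ≤ KN N x := by unfold KN; positivity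

lemma KN_le (N : ℕ) (x : ℝ) : KN N x ≤ (N : ℝ) ^ 2 := by
  unfold KN; exact pow_le_pow_left₀ (norm_nonneg _) (DD_le N x) 2

lemma cont_KN (N : ℕ) : Continuous (KN N) := by
  unfold KN; exact (cont_DD N).norm.pow 2

lemma KN_eq (N : ℕ) (x : ℝ) : ((KN N x : ℝ) : ℂ) =
    ∑ j ∈ Finset.range N, ∑ k ∈ Finset.range N, ee (((j : ℤ) - (k : ℤ) : ℤ) * x) := by
  unfold KN
  push_cast
  rw [← Complex.mul_conj', DD, map_sum, Finset.sum_mul_sum]
  refine Finset.sum_congr rfl fun j _ => Finset.sum_congr rfl fun k _ => ?_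
  rw [conj_ee, ← ee_add]
  congr 1
  push_cast; ring

lemma ee_mul_int (n : ℤ) (N : ℕ) (a : ℝ) :
    ∫ x in (0 : ℝ)..1, ee (n * x) * ((KN N (x - a) : ℝ) : ℂ) =
      ee (n * a) * ∑ j ∈ Finset.range N, ∑ k ∈ Finset.range N, (if n + (j - k) = 0 then (1 : ℂ) else 0) := by
  have h1 : ∀ x : ℝ, ee (n * x) * ((KN N (x - a) : ℝ) : ℂ) =
      ∑ j ∈ Finset.range N, ∑ k ∈ Finset.range N,
        ee (-(((j : ℤ) - (k : ℤ) : ℤ)) * a) * ee ((n + ((j : ℤ) - (k : ℤ)) : ℤ) * x) := by
    intro x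
    rw [KN_eq, Finset.mul_sum]
    refine Finset.sum_congr rfl fun j _ => ?_
    rw [Finset.mul_sum]
    refine Finset.sum_congr rfl fun k _ => ?_
    rw [← ee_add, ← ee_add]
    congr 1
    push_cast; ring
  simp_rw [h1]
  have hc : ∀ (j k : ℕ), Continuous fun x : ℝ =>
      ee (-(((j : ℤ) - (k : ℤ) : ℤ)) * a) * ee ((n + ((j : ℤ) - (k : ℤ)) : ℤ) * x) := fun j k =>
    continuous_const.mul (cont_ee.comp (by fun_prop))
  rw [intervalIntegral.integral_finsetSum fun j _ =>
    (continuous_finsetSum _ fun k _ => hc j k).intervalIntegrable _ _, Finset.mul_sum]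
  refine Finset.sum_congr rfl fun j _ => ?_
  rw [intervalIntegral.integral_finsetSum fun k _ => (hc j k).intervalIntegrable _ _, Finset.mul_sum]
  refine Finset.sum_congr rfl fun k _ => ?_
  rw [intervalIntegral.integral_const_mul, ee_int]
  split_ifs with h
  · rw [mul_one, mul_one]
    congr 1
    have : (n : ℝ) = -(((j : ℤ) - (k : ℤ) : ℤ)) := by
      have h' : (n : ℤ) = -((j : ℤ) - k) := by linarith
      rw [h']; push_cast; ring
    rw [this]
  · simp

lemma count (n N : ℕ) : ∑ j ∈ Finset.range N, ∑ k ∈ Finset.range N,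
    (if (n : ℤ) + (j - k) = 0 then (1 : ℂ) else 0) = ((N - n : ℕ) : ℂ) := by
  have h1 : ∀ j ∈ Finset.range N, ∑ k ∈ Finset.range N, (if (n : ℤ) + (j - k) = 0 then (1 : ℂ) else 0) =
      if j < N - n then 1 else 0 := by
    intro j hj
    have h2 : ∀ k ∈ Finset.range N, (if (n : ℤ) + (j - k) = 0 then (1 : ℂ) else 0) =
        if k = n + j then 1 else 0 := by
      intro k hk
      refine if_congr ?_ rfl rfl
      constructor <;> intro h <;> omega
    rw [Finset.sum_congr rfl h2, Finset.sum_ite_eq']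
    refine if_congr ?_ rfl rfl
    rw [Finset.mem_range]; omega
  rw [Finset.sum_congr rfl h1, ← Finset.sum_filter]
  rw [Finset.sum_const, nsmul_eq_mul, mul_one]
  congr 1
  have : (Finset.range N).filter (fun j => j < N - n) = Finset.range (N - n) := by
    ext j; simp only [Finset.mem_filter, Finset.mem_range]; omega
  rw [this, Finset.card_range]

lemma KN_int (N : ℕ) (a : ℝ) : ∫ x in (0 : ℝ)..1, KN N (x - a) = N := by
  have h := ee_mul_int 0 N a
  have h2 := count 0 N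
  have h3 : ∀ x : ℝ, ee ((0 : ℤ) * x) * ((KN N (x - a) : ℝ) : ℂ) = ((KN N (x - a) : ℝ) : ℂ) := by
    intro x; simp [ee]
  simp_rw [h3] at h
  have h4 : ee ((0 : ℤ) * a) = 1 := by simp [ee]
  rw [h4, one_mul] at h
  have h5 : (∑ j ∈ Finset.range N, ∑ k ∈ Finset.range N, (if (0 : ℤ) + (j - k) = 0 then (1 : ℂ) else 0)) =
    (N : ℂ) := by
    have := h2
    simpa using this
  rw [h5, intervalIntegral.integral_ofReal] at h
  exact_mod_cast h

/-- The exponential sum with coefficients `c`. -/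
noncomputable def FR (c : ℕ → ℂ) (R : ℕ) (x : ℝ) : ℂ := ∑ n ∈ Finset.Icc 1 R, c n * ee (n * x)

lemma cont_FR (c : ℕ → ℂ) (R : ℕ) : Continuous (FR c R) := by
  unfold FR
  exact continuous_finsetSum _ fun j _ => continuous_const.mul (cont_ee.comp (by fun_prop))

lemma fejer (c : ℕ → ℂ) (R N : ℕ) (a : ℝ) :
    ∫ x in (0 : ℝ)..1, FR c R x * ((KN N (x - a) : ℝ) : ℂ) =
      ∑ n ∈ Finset.Icc 1 R, c n * ee (n * a) * ((N - n : ℕ) : ℂ) := by
  have h1 : ∀ x : ℝ, FR c R x * ((KN N (x - a) : ℝ) : ℂ) =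
      ∑ n ∈ Finset.Icc 1 R, c n * (ee ((n : ℤ) * x) * ((KN N (x - a) : ℝ) : ℂ)) := by
    intro x
    unfold FR
    rw [Finset.sum_mul]
    refine Finset.sum_congr rfl fun n _ => ?_
    push_cast; ring
  simp_rw [h1]
  rw [intervalIntegral.integral_finsetSum fun n _ => ?_]
  · refine Finset.sum_congr rfl fun n _ => ?_
    rw [intervalIntegral.integral_const_mul, ee_mul_int, count]
    push_cast; ring
  · refine Continuous.intervalIntegrable ?_ _ _
    refine continuous_const.mul ((cont_ee.comp (by fun_prop)).mul ?_)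
    exact Complex.continuous_ofReal.comp ((cont_KN N).comp (by fun_prop))

/-- the `L^p` norm on `[0,1]` -/
noncomputable def Lp (c : ℕ → ℂ) (R : ℕ) (p : ℝ) : ℝ := (∫ x in (0 : ℝ)..1, ‖FR c R x‖ ^ p) ^ (1 / p)

lemma Lp_nonneg (c : ℕ → ℂ) (R : ℕ) (p : ℝ) : 0 ≤ Lp c R p := by
  unfold Lp
  refine Real.rpow_nonneg (intervalIntegral.integral_nonneg (by norm_num) fun x _ => ?_) _
  positivity

theorem fejer_le (c : ℕ → ℂ) (R N : ℕ) (a : ℝ) {p : ℝ} (hp : 1 < p) (hN : 1 ≤ N) :
    ‖∑ n ∈ Finset.Icc 1 R, c n * ee (n * a) * ((N - n : ℕ) : ℂ)‖ ≤ (N : ℝ) ^ (1 + 1 / p) * Lp c R p := by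
  have hp0 : 0 < p := by linarith
  have hN0 : (0 : ℝ) < N := by exact_mod_cast hN
  set q : ℝ := p / (p - 1) with hq
  have hpq : p.HolderConjugate q := Real.HolderConjugate.conjExponent hp
  rw [← fejer]
  have hle : ‖∫ x in (0 : ℝ)..1, FR c R x * ((KN N (x - a) : ℝ) : ℂ)‖ ≤
      ∫ x in (0 : ℝ)..1, ‖FR c R x‖ * KN N (x - a) := by
    refine (intervalIntegral.norm_integral_le_integral_norm (by norm_num)).trans (le_of_eq ?_)
    refine intervalIntegral.integral_congr fun x _ => ?_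
    show ‖_‖ = _
    rw [norm_mul, Complex.norm_real, Real.norm_of_nonneg (KN_nonneg _ _)]
  refine hle.trans ?_
  have hcK : Continuous fun x : ℝ => KN N (x - a) := (cont_KN N).comp (by fun_prop)
  have hf : Continuous fun x : ℝ => ‖FR c R x‖ * KN N (x - a) ^ (1 / p) :=
    (cont_FR c R).norm.mul (hcK.rpow_const fun x => Or.inr (by positivity))
  have hg : Continuous fun x : ℝ => KN N (x - a) ^ (1 / q) :=
    hcK.rpow_const fun x => Or.inr (by have := hpq.symm.pos; positivity)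
  have hmem : ∀ (f : ℝ → ℝ) (r : ENNReal), Continuous f → MemLp f r (volume.restrict (Set.Ioc (0 : ℝ) 1)) := by
    intro f r hf
    obtain ⟨C, hC⟩ := (isCompact_Icc (a := (0 : ℝ)) (b := 1)).exists_bound_of_continuousOn hf.continuousOn
    refine MemLp.of_bound hf.aestronglyMeasurable C ?_
    filter_upwards [ae_restrict_mem measurableSet_Ioc] with x hx
    exact hC x ⟨hx.1.le, hx.2⟩
  have hH := MeasureTheory.integral_mul_le_Lp_mul_Lq_of_nonneg (μ := volume.restrict (Set.Ioc (0 : ℝ) 1)) hpq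
    (f := fun x : ℝ => ‖FR c R x‖ * KN N (x - a) ^ (1 / p)) (g := fun x : ℝ => KN N (x - a) ^ (1 / q))
    (Eventually.of_forall fun x => by
      have := KN_nonneg N (x - a)
      show (0 : ℝ) ≤ _
      positivity)
    (Eventually.of_forall fun x => by
      have := KN_nonneg N (x - a)
      show (0 : ℝ) ≤ _
      positivity)
    (hmem _ _ hf) (hmem _ _ hg)
  have e1 : ∫ x in (0 : ℝ)..1, ‖FR c R x‖ * KN N (x - a) =
      ∫ x in Set.Ioc (0 : ℝ) 1, (‖FR c R x‖ * KN N (x - a) ^ (1 / p)) * KN N (x - a) ^ (1 / q) := by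
    rw [intervalIntegral.integral_of_le (by norm_num)]
    refine integral_congr_ae (Eventually.of_forall fun x => ?_)
    show ‖FR c R x‖ * KN N (x - a) = ‖FR c R x‖ * KN N (x - a) ^ (1 / p) * KN N (x - a) ^ (1 / q)
    have h0 := KN_nonneg N (x - a)
    rw [mul_assoc, ← Real.rpow_add_of_nonneg h0 (by positivity) (by have := hpq.symm.pos; positivity)]
    have : 1 / p + 1 / q = 1 := by
      have := hpq.inv_add_inv_eq_one
      simpa [one_div] using this
    rw [this, Real.rpow_one]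
  rw [e1]
  refine hH.trans ?_
  have e2 : (∫ x in Set.Ioc (0 : ℝ) 1, (KN N (x - a) ^ (1 / q)) ^ q) ^ (1 / q) = (N : ℝ) ^ (1 - 1 / p) := by
    have h1 : ∀ x : ℝ, (KN N (x - a) ^ (1 / q)) ^ q = KN N (x - a) := by
      intro x
      rw [← Real.rpow_mul (KN_nonneg _ _), one_div, inv_mul_cancel₀ hpq.symm.ne_zero, Real.rpow_one]
    simp_rw [h1]
    rw [← intervalIntegral.integral_of_le (by norm_num), KN_int]
    congr 1
    have := hpq.inv_add_inv_eq_one
    simp only [one_div]; linarith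
  have e3 : (∫ x in Set.Ioc (0 : ℝ) 1, (‖FR c R x‖ * KN N (x - a) ^ (1 / p)) ^ p) ^ (1 / p) ≤
      (N : ℝ) ^ (2 / p) * Lp c R p := by
    have h1 : ∀ x : ℝ, (‖FR c R x‖ * KN N (x - a) ^ (1 / p)) ^ p = ‖FR c R x‖ ^ p * KN N (x - a) := by
      intro x
      rw [Real.mul_rpow (norm_nonneg _) (by have := KN_nonneg N (x - a); positivity),
        ← Real.rpow_mul (KN_nonneg _ _), one_div, inv_mul_cancel₀ hp0.ne', Real.rpow_one]
    simp_rw [h1]
    have hc1 : Continuous fun x : ℝ => ‖FR c R x‖ ^ p :=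
      (cont_FR c R).norm.rpow_const fun x => Or.inr hp0.le
    have h2 : ∫ x in Set.Ioc (0 : ℝ) 1, ‖FR c R x‖ ^ p * KN N (x - a) ≤
        (N : ℝ) ^ 2 * ∫ x in (0 : ℝ)..1, ‖FR c R x‖ ^ p := by
      rw [← intervalIntegral.integral_of_le (by norm_num), ← intervalIntegral.integral_const_mul]
      refine intervalIntegral.integral_mono_on (by norm_num) ((hc1.mul hcK).intervalIntegrable _ _)
        ((continuous_const.mul hc1).intervalIntegrable _ _) fun x _ => ?_
      rw [mul_comm]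
      exact mul_le_mul_of_nonneg_right (KN_le _ _) (by positivity)
    have h3 : 0 ≤ ∫ x in (0 : ℝ)..1, ‖FR c R x‖ ^ p :=
      intervalIntegral.integral_nonneg (by norm_num) fun x _ => by positivity
    calc _ ≤ ((N : ℝ) ^ 2 * ∫ x in (0 : ℝ)..1, ‖FR c R x‖ ^ p) ^ (1 / p) :=
          Real.rpow_le_rpow (integral_nonneg fun x => by
            have := KN_nonneg N (x - a)
            show (0 : ℝ) ≤ _
            positivity) h2 (by positivity)
      _ = _ := by
        rw [Real.mul_rpow (by positivity) h3, Lp]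
        congr 1
        rw [← Real.rpow_natCast, ← Real.rpow_mul hN0.le]
        congr 1
        push_cast; ring
  rw [e2]
  calc _ ≤ ((N : ℝ) ^ (2 / p) * Lp c R p) * (N : ℝ) ^ (1 - 1 / p) :=
        mul_le_mul_of_nonneg_right e3 (by positivity)
    _ = ((N : ℝ) ^ (2 / p) * (N : ℝ) ^ (1 - 1 / p)) * Lp c R p := by ring
    _ = _ := by
      rw [← Real.rpow_add hN0]
      congr 2
      ring

end TH949.MS
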