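import Pool.Agent.TH949.MS.A
import Pool.Agent.TH949.MS.B

open Filter Topology Set MeasureTheory Finset

namespace TH949.MS

noncomputable def JJ (ρ : ℂ) (z : ℝ) : ℂ :=
  (1 - (z : ℂ) ^ (-ρ)) / ρ - (1 - (z : ℂ) ^ (-ρ - 1)) / (ρ + 1)

theorem J_int {ρ : ℂ} (hρ : 0 < ρ.re) {a b : ℝ} (ha : 0 < a) (hab : a ≤ b) :
    ∫ y in a..b, ((y : ℂ) - a) * (y : ℂ) ^ (-ρ - 2) = (a : ℂ) ^ (-ρ) * JJ ρ (b / a) := by
  have hb : 0 < b := ha.trans_le hab
  have hρ0 : ρ ≠ 0 := by intro h; rw [h] at hρ; simp at hρ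
  have hρ1 : ρ + 1 ≠ 0 := by
    intro h
    have : (ρ + 1).re = 0 := by rw [h]; simp
    simp at this; linarith
  have hne : ∀ y ∈ Set.uIcc a b, (y : ℂ) ≠ 0 := by
    intro y hy
    rw [Set.uIcc_of_le hab] at hy
    exact_mod_cast (ha.trans_le hy.1).ne'
  have h1 : ∀ y ∈ Set.uIcc a b, ((y : ℂ) - a) * (y : ℂ) ^ (-ρ - 2) =
      (y : ℂ) ^ (-ρ - 1) - a * (y : ℂ) ^ (-(ρ + 1) - 1) := by
    intro y hy
    have h := hne y hy
    have e1 : (y : ℂ) ^ (-ρ - 1) = y * (y : ℂ) ^ (-ρ - 2) := by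
      rw [show -ρ - 1 = 1 + (-ρ - 2) by ring, Complex.cpow_add _ _ h, Complex.cpow_one]
    rw [e1, show -(ρ + 1) - 1 = -ρ - 2 by ring]; ring
  rw [intervalIntegral.integral_congr h1]
  have hc : ∀ s : ℂ, IntervalIntegrable (fun y : ℝ => (y : ℂ) ^ s) volume a b := by
    intro s
    refine ContinuousOn.intervalIntegrable fun y hy => ?_
    refine ContinuousAt.continuousWithinAt ?_
    refine ContinuousAt.cpow Complex.continuous_ofReal.continuousAt continuousAt_const ?_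
    rw [Set.uIcc_of_le hab] at hy
    left
    simpa using ha.trans_le hy.1
  rw [intervalIntegral.integral_sub (hc _) ((hc _).const_mul _), intervalIntegral.integral_const_mul,
    cpow_int ρ hρ ha hab, cpow_int (ρ + 1) (by simp; linarith) ha hab]
  have hac : (a : ℂ) ≠ 0 := by exact_mod_cast ha.ne'
  have e2 : (a : ℂ) ^ (-(ρ + 1)) = (a : ℂ) ^ (-ρ) * (a : ℂ)⁻¹ := by
    rw [show -(ρ + 1) = -ρ + -1 by ring, Complex.cpow_add _ _ hac, Complex.cpow_neg_one]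
  have e3 : ∀ s : ℂ, (b : ℂ) ^ s = (a : ℂ) ^ s * ((b / a : ℝ) : ℂ) ^ s := by
    intro s
    rw [← Complex.mul_cpow_ofReal_nonneg ha.le (by positivity)]
    congr 1
    push_cast
    field_simp
  rw [e3 (-ρ), e3 (-(ρ + 1)), e2, JJ, show -ρ - 1 = -(ρ + 1) by ring]
  field_simp

theorem J_tendsto {ρ : ℂ} (hρ : 0 < ρ.re) : Tendsto (fun z : ℝ => JJ ρ z) atTop
    (𝓝 (1 / (ρ * (ρ + 1)))) := by
  have hρ0 : ρ ≠ 0 := by intro h; rw [h] at hρ; simp at hρ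
  have hρ1 : ρ + 1 ≠ 0 := by
    intro h
    have : (ρ + 1).re = 0 := by rw [h]; simp
    simp at this; linarith
  have hz : ∀ s : ℂ, s.re < 0 → Tendsto (fun z : ℝ => (z : ℂ) ^ s) atTop (𝓝 0) := by
    intro s hs
    rw [tendsto_zero_iff_norm_tendsto_zero]
    have h1 : Tendsto (fun z : ℝ => z ^ (-(-s.re))) atTop (𝓝 0) := tendsto_rpow_neg_atTop (by linarith)
    rw [neg_neg] at h1
    refine h1.congr' ?_
    filter_upwards [eventually_gt_atTop 0] with z hz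
    exact (norm_cpow_nat' hz s).symm
  have h := (((hz (-ρ) (by simpa using hρ)).const_sub 1).div_const ρ).sub
    (((hz (-ρ - 1) (by simp; linarith)).const_sub 1).div_const (ρ + 1))
  have e : (1 - 0) / ρ - (1 - 0) / (ρ + 1) = 1 / (ρ * (ρ + 1)) := by
    field_simp; ring
  rw [e] at h
  exact h

/-- the integrated partial sums -/
noncomputable def TT (c : ℕ → ℂ) (R : ℕ) (y : ℝ) : ℂ :=
  ∑ n ∈ Finset.Icc 1 R, c n * ((max (y - n) 0 : ℝ) : ℂ)

lemma TT_nat (c : ℕ → ℂ) (R N : ℕ) : TT c R N = ∑ n ∈ Finset.Icc 1 R, c n * ((N - n : ℕ) : ℂ) := by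
  unfold TT
  refine Finset.sum_congr rfl fun n _ => ?_
  congr 1
  rcases le_total n N with h | h
  · rw [max_eq_left (by simpa using h), Nat.cast_sub h]; push_cast; ring
  · rw [max_eq_right (by simpa using h), Nat.sub_eq_zero_of_le h]; simp

lemma TT_interp (c : ℕ → ℂ) (R : ℕ) {y : ℝ} (hy : 0 ≤ y) :
    TT c R y = ((⌊y⌋₊ + 1 - y : ℝ) : ℂ) * TT c R ((⌊y⌋₊ : ℕ) : ℝ) +
      ((y - ⌊y⌋₊ : ℝ) : ℂ) * TT c R ((⌊y⌋₊ + 1 : ℕ) : ℝ) := by
  set N := ⌊y⌋₊ with hN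
  have h1 : (N : ℝ) ≤ y := Nat.floor_le hy
  have h2 : y < N + 1 := Nat.lt_floor_add_one y
  unfold TT
  rw [Finset.mul_sum, Finset.mul_sum, ← Finset.sum_add_distrib]
  refine Finset.sum_congr rfl fun n _ => ?_
  have key : max (y - n) 0 = (N + 1 - y) * max ((N : ℝ) - n) 0 + (y - N) * max (((N + 1 : ℕ) : ℝ) - n) 0 := by
    rcases le_or_gt n N with h | h
    · have h' : (n : ℝ) ≤ N := by exact_mod_cast h
      rw [max_eq_left (by linarith), max_eq_left (by linarith), max_eq_left (by push_cast; linarith)]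
      push_cast; ring
    · have h' : (N : ℝ) + 1 ≤ n := by exact_mod_cast h
      rw [max_eq_right (by linarith), max_eq_right (by linarith), max_eq_right (by push_cast; linarith)]
      ring
  rw [key]
  push_cast; ring

lemma TT_bound {c : ℕ → ℂ} {R : ℕ} {K p : ℝ} (hp : 1 < p) (hK : 0 ≤ K)
    (h : ∀ N : ℕ, 1 ≤ N → ‖TT c R (N : ℝ)‖ ≤ K * (N : ℝ) ^ (1 + 1 / p)) {y : ℝ} (hy : 1 ≤ y) :
    ‖TT c R y‖ ≤ 4 * K * y ^ (1 + 1 / p) := by
  rw [TT_interp c R (by linarith)]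
  set N := ⌊y⌋₊ with hN
  have h1 : (N : ℝ) ≤ y := Nat.floor_le (by linarith)
  have h2 : y < N + 1 := Nat.lt_floor_add_one y
  have hN1 : 1 ≤ N := Nat.le_floor (by simpa using hy)
  have hN0 : (1 : ℝ) ≤ N := by exact_mod_cast hN1
  have hp0 : 0 < 1 / p := by positivity
  have hp1 : 1 / p ≤ 1 := by rw [div_le_one (by linarith)]; linarith
  have e1 : K * (N : ℝ) ^ (1 + 1 / p) ≤ K * (2 * y) ^ (1 + 1 / p) :=
    mul_le_mul_of_nonneg_left (Real.rpow_le_rpow (by positivity) (by linarith) (by linarith)) hK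
  have e2 : K * (((N + 1 : ℕ) : ℝ)) ^ (1 + 1 / p) ≤ K * (2 * y) ^ (1 + 1 / p) :=
    mul_le_mul_of_nonneg_left (Real.rpow_le_rpow (by positivity) (by push_cast; linarith)
      (by linarith)) hK
  have e3 : (2 * y) ^ (1 + 1 / p) ≤ 4 * y ^ (1 + 1 / p) := by
    rw [Real.mul_rpow (by norm_num) (by linarith)]
    refine mul_le_mul_of_nonneg_right ?_ (by positivity)
    calc (2 : ℝ) ^ (1 + 1 / p) ≤ (2 : ℝ) ^ (2 : ℝ) :=
          Real.rpow_le_rpow_of_exponent_le (by norm_num) (by linarith)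
      _ = 4 := by norm_num
  calc _ ≤ _ := norm_add_le _ _
    _ ≤ (N + 1 - y) * (K * (2 * y) ^ (1 + 1 / p)) + (y - N) * (K * (2 * y) ^ (1 + 1 / p)) := by
      rw [norm_mul, norm_mul, Complex.norm_real, Complex.norm_real,
        Real.norm_of_nonneg (by linarith : (0 : ℝ) ≤ N + 1 - y), Real.norm_of_nonneg (by linarith : (0 : ℝ) ≤ y - N)]
      exact add_le_add (mul_le_mul_of_nonneg_left ((h N hN1).trans e1) (by linarith))
        (mul_le_mul_of_nonneg_left ((h (N + 1) (by omega)).trans e2) (by linarith))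
    _ = K * (2 * y) ^ (1 + 1 / p) := by ring
    _ ≤ K * (4 * y ^ (1 + 1 / p)) := mul_le_mul_of_nonneg_left e3 hK
    _ = _ := by ring

noncomputable def gterm (ρ : ℂ) (R n m : ℕ) (y : ℝ) : ℂ :=
  ((max (y - n) 0 : ℝ) : ℂ) * (y : ℂ) ^ (-ρ - 2) * (if (m : ℝ) * y ≤ R then 1 else 0)

lemma gterm_eq (ρ : ℂ) (R : ℕ) {n m : ℕ} (hm : 1 ≤ m) (y : ℝ) : gterm ρ R n m y =
    (Set.Ioc (n : ℝ) (R / m)).indicator (fun y : ℝ => ((y : ℂ) - (n : ℝ)) * (y : ℂ) ^ (-ρ - 2)) y := by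
  have hm0 : (0 : ℝ) < m := by exact_mod_cast hm
  unfold gterm
  by_cases h1 : (n : ℝ) < y
  · by_cases h2 : (m : ℝ) * y ≤ R
    · rw [Set.indicator_of_mem, if_pos h2, mul_one, max_eq_left (by linarith)]
      · push_cast; ring
      · exact ⟨h1, by rw [le_div_iff₀ hm0]; linarith⟩
    · rw [Set.indicator_of_notMem, if_neg h2, mul_zero]
      rintro ⟨_, h3⟩
      rw [le_div_iff₀ hm0] at h3
      exact h2 (by linarith)
  · rw [Set.indicator_of_notMem, max_eq_right (by linarith)]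
    · simp
    · rintro ⟨h3, _⟩
      exact h1 h3

lemma gterm_cont (ρ : ℂ) (n : ℕ) (R : ℝ) : IntegrableOn
    (fun y : ℝ => ((y : ℂ) - (n : ℝ)) * (y : ℂ) ^ (-ρ - 2)) (Set.Ioc 1 R) := by
  refine (ContinuousOn.integrableOn_Icc (a := 1) (b := R) fun y hy => ?_).mono_set Set.Ioc_subset_Icc_self
  refine ContinuousAt.continuousWithinAt ?_
  refine ((Complex.continuous_ofReal.continuousAt).sub continuousAt_const).mul
    (ContinuousAt.cpow Complex.continuous_ofReal.continuousAt continuousAt_const ?_)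
  left
  have : (0 : ℝ) < y := by linarith [hy.1]
  simpa using this

lemma gterm_integrable (ρ : ℂ) (R : ℕ) {n m : ℕ} (hm : 1 ≤ m) :
    IntegrableOn (gterm ρ R n m) (Set.Ioc 1 R) := by
  have : gterm ρ R n m = (Set.Ioc (n : ℝ) (R / m)).indicator
      (fun y : ℝ => ((y : ℂ) - (n : ℝ)) * (y : ℂ) ^ (-ρ - 2)) := by
    funext y; exact gterm_eq ρ R hm y
  rw [this]
  exact (gterm_cont ρ n R).indicator measurableSet_Ioc

lemma gterm_integral {ρ : ℂ} (hρ : 0 < ρ.re) (R : ℕ) {n m : ℕ} (hn : 1 ≤ n) (hm : 1 ≤ m) :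
    ∫ y in Set.Ioc (1 : ℝ) R, gterm ρ R n m y =
      if n * m ≤ R then (n : ℂ) ^ (-ρ) * JJ ρ (R / (n * m : ℕ)) else 0 := by
  have hm0 : (0 : ℝ) < m := by exact_mod_cast hm
  have hm1 : (1 : ℝ) ≤ m := by exact_mod_cast hm
  have hn0 : (0 : ℝ) < n := by exact_mod_cast hn
  have hn1 : (1 : ℝ) ≤ n := by exact_mod_cast hn
  have : gterm ρ R n m = (Set.Ioc (n : ℝ) (R / m)).indicator
      (fun y : ℝ => ((y : ℂ) - (n : ℝ)) * (y : ℂ) ^ (-ρ - 2)) := by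
    funext y; exact gterm_eq ρ R hm y
  rw [this, setIntegral_indicator measurableSet_Ioc]
  split_ifs with h
  · have h' : (n : ℝ) * m ≤ R := by exact_mod_cast h
    have h1 : (n : ℝ) ≤ R / m := by rw [le_div_iff₀ hm0]; exact h'
    have h2 : Set.Ioc (1 : ℝ) R ∩ Set.Ioc (n : ℝ) (R / m) = Set.Ioc (n : ℝ) (R / m) := by
      rw [Set.inter_eq_right]
      refine Set.Ioc_subset_Ioc hn1 ?_
      exact div_le_self (Nat.cast_nonneg _) hm1
    rw [h2, ← intervalIntegral.integral_of_le h1, J_int hρ hn0 h1]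
    congr 2
    push_cast
    field_simp
  · have h' : (R : ℝ) < n * m := by exact_mod_cast not_le.1 h
    have h1 : (R / m : ℝ) < n := by rw [div_lt_iff₀ hm0]; exact h'
    have h2 : Set.Ioc (n : ℝ) (R / m) = ∅ := Set.Ioc_eq_empty (by linarith)
    rw [h2]
    simp

noncomputable def A' (b : ℕ → ℂ) (ρ : ℂ) (R : ℕ) (y : ℝ) : ℂ :=
  ∑ m ∈ Finset.Icc 1 R, b m * (m : ℂ) ^ (-ρ) * (if (m : ℝ) * y ≤ R then 1 else 0)

lemma A'_eq (b : ℕ → ℂ) (ρ : ℂ) (R : ℕ) {y : ℝ} (hy : 1 ≤ y) :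
    A' b ρ R y = ∑ m ∈ Finset.Icc 1 ⌊(R : ℝ) / y⌋₊, b m * (m : ℂ) ^ (-ρ) := by
  have hy0 : 0 < y := by linarith
  unfold A'
  simp only [mul_ite, mul_one, mul_zero]
  rw [← Finset.sum_filter]
  refine Finset.sum_congr ?_ fun _ _ => rfl
  ext m
  simp only [Finset.mem_filter, Finset.mem_Icc]
  constructor
  · rintro ⟨⟨h1, _⟩, h3⟩
    exact ⟨h1, Nat.le_floor (by rw [le_div_iff₀ hy0]; exact h3)⟩
  · rintro ⟨h1, h2⟩
    have h3 : (m : ℝ) ≤ R / y := (Nat.cast_le.2 h2).trans (Nat.floor_le (by positivity))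
    have h4 : (m : ℝ) * y ≤ R := by rwa [le_div_iff₀ hy0] at h3
    refine ⟨⟨h1, ?_⟩, h4⟩
    have h5 : (m : ℝ) ≤ R := by nlinarith [Nat.cast_nonneg (α := ℝ) m]
    exact_mod_cast h5

lemma A'_bound {b : ℕ → ℂ} {ρ : ℂ} (hρ : 0 < ρ.re) {C : ℝ} (hC : 0 ≤ C)
    (h : ∀ N : ℕ, ‖∑ m ∈ Finset.Icc 1 N, b m * (m : ℂ) ^ (-ρ)‖ ≤ C * ((N + 1 : ℕ) : ℝ) ^ (-ρ.re))
    {R : ℕ} (hR : 1 ≤ R) {y : ℝ} (hy : 1 ≤ y) : ‖A' b ρ R y‖ ≤ C * (R : ℝ) ^ (-ρ.re) * y ^ ρ.re := by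
  have hy0 : 0 < y := by linarith
  have hR0 : (0 : ℝ) < R := by exact_mod_cast hR
  rw [A'_eq b ρ R hy]
  refine (h _).trans ?_
  rw [mul_assoc]
  refine mul_le_mul_of_nonneg_left ?_ hC
  have h1 : (R : ℝ) / y ≤ ((⌊(R : ℝ) / y⌋₊ + 1 : ℕ) : ℝ) := by
    push_cast; exact (Nat.lt_floor_add_one _).le
  calc _ ≤ ((R : ℝ) / y) ^ (-ρ.re) :=
        Real.rpow_le_rpow_of_nonpos (by positivity) h1 (by linarith)
    _ = _ := by
      rw [Real.div_rpow hR0.le hy0.le, Real.rpow_neg hy0.le, div_inv_eq_mul]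

theorem regroup {R : ℕ} (f : ℕ → ℕ → ℂ) (h : ℕ → ℂ) :
    ∑ n ∈ Finset.Icc 1 R, ∑ m ∈ Finset.Icc 1 R, (if n * m ≤ R then f n m * h (n * m) else 0) =
      ∑ k ∈ Finset.Icc 1 R, (∑ x ∈ k.divisorsAntidiagonal, f x.1 x.2) * h k := by
  rw [← Finset.sum_product', ← Finset.sum_filter]
  rw [← Finset.sum_fiberwise_of_maps_to (t := Finset.Icc 1 R) (g := fun x : ℕ × ℕ => x.1 * x.2)]
  · refine Finset.sum_congr rfl fun k hk => ?_
    rw [Finset.mem_Icc] at hk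
    have : (Finset.filter (fun x : ℕ × ℕ => x.1 * x.2 = k)
        (Finset.filter (fun x : ℕ × ℕ => x.1 * x.2 ≤ R) (Finset.Icc 1 R ×ˢ Finset.Icc 1 R))) =
        k.divisorsAntidiagonal := by
      ext ⟨a, b⟩
      simp only [Finset.mem_filter, Finset.mem_product, Finset.mem_Icc, Nat.mem_divisorsAntidiagonal]
      constructor
      · rintro ⟨⟨_, _⟩, h3⟩
        exact ⟨h3, by omega⟩
      · rintro ⟨h1, h2⟩
        have ha : 1 ≤ a := by
          rcases Nat.eq_zero_or_pos a with h | h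
          · subst h; simp at h1; omega
          · exact h
        have hb : 1 ≤ b := by
          rcases Nat.eq_zero_or_pos b with h | h
          · subst h; simp at h1; omega
          · exact h
        have ha' : a ≤ k := by rw [← h1]; exact Nat.le_mul_of_pos_right a hb
        have hb' : b ≤ k := by rw [← h1]; exact Nat.le_mul_of_pos_left b ha
        exact ⟨⟨⟨⟨ha, by omega⟩, ⟨hb, by omega⟩⟩, by omega⟩, h1⟩
    rw [this, Finset.sum_mul]
    refine Finset.sum_congr rfl fun x hx => ?_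
    rw [(Nat.mem_divisorsAntidiagonal.1 hx).1]
  · intro x hx
    simp only [Finset.mem_filter, Finset.mem_product, Finset.mem_Icc] at hx
    rw [Finset.mem_Icc]
    exact ⟨Nat.mul_pos hx.1.1.1 hx.1.2.1, hx.2⟩

theorem identity {c b : ℕ → ℂ} {ε : ℂ}
    (hcb : ∀ k : ℕ, 1 ≤ k → ∑ x ∈ k.divisorsAntidiagonal, c x.1 * b x.2 =
      if k = 1 then 1 else if k = 2 then ε else 0) {ρ : ℂ} (hρ : 0 < ρ.re) {R : ℕ} (hR : 2 ≤ R) :
    ∫ y in Set.Ioc (1 : ℝ) R, TT c R y * (y : ℂ) ^ (-ρ - 2) * A' b ρ R y =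
      JJ ρ R + ε * (2 : ℂ) ^ (-ρ) * JJ ρ (R / 2) := by
  have h1 : ∀ y : ℝ, TT c R y * (y : ℂ) ^ (-ρ - 2) * A' b ρ R y =
      ∑ n ∈ Finset.Icc 1 R, ∑ m ∈ Finset.Icc 1 R,
        (c n * (b m * (m : ℂ) ^ (-ρ))) * gterm ρ R n m y := by
    intro y
    unfold TT A' gterm
    rw [Finset.sum_mul, Finset.sum_mul_sum]
    refine Finset.sum_congr rfl fun n _ => Finset.sum_congr rfl fun m _ => ?_
    ring
  simp_rw [h1]
  rw [integral_finsetSum _ fun n _ => integrable_finsetSum _ fun m hm =>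
    (gterm_integrable ρ R (Finset.mem_Icc.1 hm).1).const_mul _]
  have h2 : ∀ n ∈ Finset.Icc 1 R, ∫ y in Set.Ioc (1 : ℝ) R, ∑ m ∈ Finset.Icc 1 R,
        (c n * (b m * (m : ℂ) ^ (-ρ))) * gterm ρ R n m y =
      ∑ m ∈ Finset.Icc 1 R, (if n * m ≤ R then (c n * b m) *
        (((n * m : ℕ) : ℂ) ^ (-ρ) * JJ ρ (R / (n * m : ℕ))) else 0) := by
    intro n hn
    rw [Finset.mem_Icc] at hn
    rw [integral_finsetSum _ fun m hm => (gterm_integrable ρ R (Finset.mem_Icc.1 hm).1).const_mul _]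
    refine Finset.sum_congr rfl fun m hm => ?_
    rw [Finset.mem_Icc] at hm
    rw [integral_const_mul, gterm_integral hρ R hn.1 hm.1]
    split_ifs with h
    · have e : ((n * m : ℕ) : ℂ) ^ (-ρ) = (n : ℂ) ^ (-ρ) * (m : ℂ) ^ (-ρ) := by
        rw [Nat.cast_mul, Complex.natCast_mul_natCast_cpow]
      rw [e]
      ring
    · simp
  rw [Finset.sum_congr rfl h2, regroup (fun n m => c n * b m)
    (fun k => ((k : ℕ) : ℂ) ^ (-ρ) * JJ ρ (R / (k : ℕ)))]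
  have h3 : ∀ k ∈ Finset.Icc 1 R, (∑ x ∈ k.divisorsAntidiagonal, c x.1 * b x.2) *
      (((k : ℕ) : ℂ) ^ (-ρ) * JJ ρ (R / (k : ℕ))) =
      (if k = 1 then JJ ρ R else 0) + (if k = 2 then ε * (2 : ℂ) ^ (-ρ) * JJ ρ (R / 2) else 0) := by
    intro k hk
    rw [Finset.mem_Icc] at hk
    rw [hcb k hk.1]
    by_cases h1 : k = 1
    · subst h1; simp
    · by_cases h2 : k = 2
      · subst h2; simp; ring
      · simp [h1, h2]
  rw [Finset.sum_congr rfl h3, Finset.sum_add_distrib, Finset.sum_ite_eq', Finset.sum_ite_eq',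
    if_pos (Finset.mem_Icc.2 ⟨le_refl _, by omega⟩), if_pos (Finset.mem_Icc.2 ⟨by omega, hR⟩)]

theorem upper {c b : ℕ → ℂ} {ρ : ℂ} (hρ : 0 < ρ.re) {C : ℝ} (hC : 0 ≤ C)
    (hb : ∀ N : ℕ, ‖∑ m ∈ Finset.Icc 1 N, b m * (m : ℂ) ^ (-ρ)‖ ≤ C * ((N + 1 : ℕ) : ℝ) ^ (-ρ.re))
    {R : ℕ} (hR : 1 ≤ R) {K p : ℝ} (hp : 1 < p) (hK : 0 ≤ K)
    (h : ∀ N : ℕ, 1 ≤ N → ‖TT c R (N : ℝ)‖ ≤ K * (N : ℝ) ^ (1 + 1 / p)) :
    ‖∫ y in Set.Ioc (1 : ℝ) R, TT c R y * (y : ℂ) ^ (-ρ - 2) * A' b ρ R y‖ ≤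
      4 * K * C * p * (R : ℝ) ^ (1 / p - ρ.re) := by
  have hR1 : (1 : ℝ) ≤ R := by exact_mod_cast hR
  have hR0 : (0 : ℝ) < R := by linarith
  have hp0 : 0 < p := by linarith
  have h0 : (0 : ℝ) ∉ Set.uIcc (1 : ℝ) R := by
    rw [Set.uIcc_of_le hR1, Set.mem_Icc]; push Not; intro h; linarith
  have hint : IntervalIntegrable (fun y : ℝ => y ^ (1 / p - 1)) volume 1 R :=
    intervalIntegral.intervalIntegrable_rpow (Or.inr h0)
  have h1 : ‖∫ y in Set.Ioc (1 : ℝ) R, TT c R y * (y : ℂ) ^ (-ρ - 2) * A' b ρ R y‖ ≤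
      ∫ y in Set.Ioc (1 : ℝ) R, 4 * K * C * (R : ℝ) ^ (-ρ.re) * y ^ (1 / p - 1) := by
    refine norm_integral_le_of_norm_le ?_ ?_
    · exact ((intervalIntegrable_iff_integrableOn_Ioc_of_le hR1).1 hint).const_mul _
    · filter_upwards [ae_restrict_mem measurableSet_Ioc] with y hy
      have hy1 : 1 ≤ y := hy.1.le
      have hy0 : 0 < y := by linarith
      rw [norm_mul, norm_mul, norm_cpow_nat' hy0]
      have e0 : (-ρ - 2).re = -ρ.re - 2 := by simp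
      rw [e0]
      calc _ ≤ (4 * K * y ^ (1 + 1 / p)) * y ^ (-ρ.re - 2) * (C * (R : ℝ) ^ (-ρ.re) * y ^ ρ.re) := by
            refine mul_le_mul (mul_le_mul_of_nonneg_right (TT_bound hp hK h hy1) (by positivity))
              (A'_bound hρ hC hb hR hy1) (norm_nonneg _) (by positivity)
        _ = 4 * K * C * (R : ℝ) ^ (-ρ.re) * (y ^ (1 + 1 / p) * y ^ (-ρ.re - 2) * y ^ ρ.re) := by ring
        _ = _ := by
          rw [← Real.rpow_add hy0, ← Real.rpow_add hy0]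
          congr 2
          ring
  refine h1.trans ?_
  rw [← intervalIntegral.integral_of_le hR1, intervalIntegral.integral_const_mul,
    integral_rpow (Or.inl (by have : 0 < 1 / p := by positivity
                              linarith))]
  rw [show 1 / p - 1 + 1 = 1 / p by ring, Real.one_rpow]
  have e1 : ((R : ℝ) ^ (1 / p) - 1) / (1 / p) = p * ((R : ℝ) ^ (1 / p) - 1) := by
    field_simp
  rw [e1]
  calc _ ≤ 4 * K * C * (R : ℝ) ^ (-ρ.re) * (p * (R : ℝ) ^ (1 / p)) := by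
        refine mul_le_mul_of_nonneg_left ?_ (by positivity)
        exact mul_le_mul_of_nonneg_left (by linarith) hp0.le
    _ = 4 * K * C * p * ((R : ℝ) ^ (1 / p) * (R : ℝ) ^ (-ρ.re)) := by ring
    _ = _ := by
      rw [← Real.rpow_add hR0]
      congr 2

end TH949.MS
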