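import Pool.Agent.TH949.MS.C

open Filter Topology Set MeasureTheory Finset

namespace TH949.MS

variable {q : ℕ} [NeZero q]

lemma full_sum (Φ : ZMod q → ℂ) : ∑ k ∈ Finset.range q, Φ (k : ZMod q) = ∑ j, Φ j := by
  refine Finset.sum_nbij' (fun k => (k : ZMod q)) ZMod.val (fun _ _ => Finset.mem_univ _) ?_ ?_ ?_ ?_
  · intro j _; exact Finset.mem_range.2 (ZMod.val_lt j)
  · intro k hk; exact ZMod.val_cast_of_lt (Finset.mem_range.1 hk)
  · intro j _; exact ZMod.natCast_zmod_val j
  · intro k _; rfl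

lemma SS_range (b : ℕ → ℂ) (n : ℕ) : SS b n = ∑ k ∈ Finset.range (n + 1), b k - b 0 := by
  unfold SS
  induction n with
  | zero => simp
  | succ n ih => rw [Finset.sum_Icc_succ_top (by omega), ih, Finset.sum_range_succ _ (n + 1)]; ring

lemma per_bound (Φ : ZMod q → ℂ) (hΦ1 : ∀ j, ‖Φ j‖ ≤ 1) (h0 : ∑ j, Φ j = 0) (n : ℕ) :
    ‖SS (fun k : ℕ => Φ (k : ZMod q)) n‖ ≤ q := by
  set b : ℕ → ℂ := fun k => Φ (k : ZMod q) with hb
  have hper : ∀ k, b (k + q) = b k := by intro k; simp [hb]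
  have h1 : ∀ n, ∑ k ∈ Finset.range (n + q), b k = ∑ k ∈ Finset.range n, b k := by
    intro n
    induction n with
    | zero =>
      simp only [zero_add, Finset.range_zero, Finset.sum_empty]
      rw [hb, full_sum Φ, h0]
    | succ n ih =>
      rw [show n + 1 + q = (n + q) + 1 by ring, Finset.sum_range_succ, ih, hper,
        Finset.sum_range_succ]
  have h2 : ∀ n, ∑ k ∈ Finset.range n, b k = ∑ k ∈ Finset.range (n % q), b k := by
    intro n
    induction n using Nat.strong_induction_on with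
    | _ n ih =>
      rcases lt_or_ge n q with h | h
      · rw [Nat.mod_eq_of_lt h]
      · obtain ⟨m, rfl⟩ := Nat.exists_eq_add_of_le h
        rw [add_comm q m, h1, Nat.add_mod_right]
        exact ih m (by have := NeZero.pos q; omega)
  rw [SS_range, h2]
  have h3 : ‖∑ k ∈ Finset.range ((n + 1) % q), b k‖ ≤ (((n + 1) % q : ℕ) : ℝ) := by
    refine (norm_sum_le _ _).trans ?_
    calc ∑ k ∈ Finset.range ((n + 1) % q), ‖b k‖ ≤ ∑ k ∈ Finset.range ((n + 1) % q), (1 : ℝ) :=
          Finset.sum_le_sum fun k _ => hΦ1 _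
      _ = _ := by simp
  have h4 : (((n + 1) % q + 1 : ℕ) : ℝ) ≤ q := by
    exact_mod_cast Nat.mod_lt (n + 1) (NeZero.pos q)
  have h5 : ‖b 0‖ ≤ 1 := hΦ1 _
  push_cast at h4
  calc _ ≤ _ := norm_sub_le _ _
    _ ≤ _ := by
      have := add_le_add h3 h5
      push_cast at this
      linarith

lemma char_exp (Φ : ZMod q → ℂ) (hΦ1 : ∀ j, ‖Φ j‖ ≤ 1) : ∃ w : ZMod q → ℂ, ∑ a, ‖w a‖ ≤ q ∧ ∀ n : ℕ,
    Φ (n : ZMod q) = ∑ a, w a * ee (n * ((a.val : ℝ) / q)) := by
  have hq0 : (0 : ℝ) < q := by exact_mod_cast NeZero.pos q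
  have hcard : ∑ j : ZMod q, (1 : ℝ) = q := by simp [ZMod.card]
  refine ⟨fun a => (q : ℂ)⁻¹ * ZMod.dft Φ a, ?_, fun n => ?_⟩
  · rw [← hcard]
    refine Finset.sum_le_sum fun a _ => ?_
    rw [norm_mul, norm_inv, Complex.norm_natCast, inv_mul_le_iff₀ hq0, mul_one, ZMod.dft_apply]
    refine (norm_sum_le _ _).trans ?_
    rw [← hcard]
    refine Finset.sum_le_sum fun j _ => ?_
    rw [norm_smul, AddChar.norm_apply, one_mul]
    exact hΦ1 j
  have h := ZMod.invDFT_apply (ZMod.dft Φ) (n : ZMod q)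
  rw [LinearEquiv.symm_apply_apply] at h
  rw [h, smul_eq_mul, Finset.mul_sum]
  refine Finset.sum_congr rfl fun a _ => ?_
  have h1 : (ZMod.stdAddChar (a * (n : ZMod q)) : ℂ) = ee (n * ((a.val : ℝ) / q)) := by
    have h2 : a * (n : ZMod q) = (((a.val * n : ℕ) : ℤ) : ZMod q) := by
      push_cast
      rw [ZMod.natCast_zmod_val]
    rw [h2, ZMod.stdAddChar_coe]
    unfold ee
    congr 1
    push_cast; ring
  rw [h1, smul_eq_mul]; ring

lemma lseries_tendsto {f : ℕ → ℂ} {s : ℂ} (h : LSeriesSummable f s) :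
    Tendsto (fun N : ℕ => ∑ m ∈ Finset.Icc 1 N, f m * (m : ℂ) ^ (-s)) atTop (𝓝 (LSeries f s)) := by
  have h1 := h.hasSum.tendsto_sum_nat
  have h2 := h1.comp (tendsto_add_atTop_nat 1)
  refine h2.congr fun N => ?_
  simp only [Function.comp]
  rw [Finset.sum_range_succ']
  simp only [LSeries.term_zero, add_zero]
  have : ∑ m ∈ Finset.Icc 1 N, f m * (m : ℂ) ^ (-s) =
      ∑ m ∈ Finset.range N, f (m + 1) * ((m + 1 : ℕ) : ℂ) ^ (-s) := by
    rw [Finset.range_eq_Ico, Finset.sum_Ico_add' (fun m => f m * ((m : ℕ) : ℂ) ^ (-s)) 0 N 1]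
    rfl
  rw [this]
  refine Finset.sum_congr rfl fun m _ => ?_
  rw [LSeries.term_of_ne_zero (Nat.succ_ne_zero m), Complex.cpow_neg, div_eq_mul_inv]

/-- the bound for the partial sums at a zero -/
theorem zero_bound (Φ : ZMod q → ℂ) (hΦ1 : ∀ j, ‖Φ j‖ ≤ 1) (hΦ : ∑ j, Φ j = 0) {ρ : ℂ} (hρ : 0 < ρ.re)
    (h0 : ZMod.LFunction Φ ρ = 0) (N : ℕ) :
    ‖∑ m ∈ Finset.Icc 1 N, Φ (m : ZMod q) * (m : ℂ) ^ (-ρ)‖ ≤
      (q + q * (‖ρ‖ / ρ.re)) * ((N + 1 : ℕ) : ℝ) ^ (-ρ.re) := by
  refine partial_bound (b := fun k : ℕ => Φ (k : ZMod q)) (per_bound Φ hΦ1 hΦ)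
    (ZMod.differentiable_LFunction_of_sum_zero hΦ).differentiableOn (fun s hs => ?_) hρ h0 N
  rw [ZMod.LFunction_eq_LSeries Φ hs]
  exact lseries_tendsto (ZMod.LSeriesSummable_of_one_lt_re Φ hs)

lemma mu_sum {k : ℕ} (hk : 1 ≤ k) : ∑ x ∈ k.divisorsAntidiagonal, ((ArithmeticFunction.moebius x.1 : ℤ) : ℂ) =
    if k = 1 then 1 else 0 := by
  have h := congrArg (fun f : ArithmeticFunction ℤ => f k) ArithmeticFunction.moebius_mul_coe_zeta
  simp only [ArithmeticFunction.mul_apply, ArithmeticFunction.one_apply] at h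
  have h2 : ∑ x ∈ k.divisorsAntidiagonal, ArithmeticFunction.moebius x.1 = if k = 1 then 1 else 0 := by
    rw [← h]
    refine Finset.sum_congr rfl fun x hx => ?_
    have : x.2 ≠ 0 := by
      intro h0
      have := (Nat.mem_divisorsAntidiagonal.1 hx)
      rw [h0] at this; simp at this; omega
    simp [ArithmeticFunction.natCoe_apply, ArithmeticFunction.zeta_apply, this]
  have h3 := congrArg (fun z : ℤ => (z : ℂ)) h2
  push_cast at h3
  exact h3

omit [NeZero q] in
lemma conv_char (χ : DirichletCharacter ℂ q) {k : ℕ} (hk : 1 ≤ k) :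
    ∑ x ∈ k.divisorsAntidiagonal, (((ArithmeticFunction.moebius x.1 : ℤ) : ℂ) * χ (x.1 : ZMod q)) *
      χ (x.2 : ZMod q) = if k = 1 then 1 else if k = 2 then 0 else 0 := by
  have h1 : ∀ x ∈ k.divisorsAntidiagonal, (((ArithmeticFunction.moebius x.1 : ℤ) : ℂ) * χ (x.1 : ZMod q)) *
      χ (x.2 : ZMod q) = χ (k : ZMod q) * ((ArithmeticFunction.moebius x.1 : ℤ) : ℂ) := by
    intro x hx
    rw [← (Nat.mem_divisorsAntidiagonal.1 hx).1, Nat.cast_mul, map_mul]; ring
  rw [Finset.sum_congr rfl h1, ← Finset.mul_sum, mu_sum hk]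
  by_cases h : k = 1
  · subst h; simp
  · simp [h]

/-- the periodic function `1, -1` -/
noncomputable def Φ2 : ZMod 2 → ℂ := fun j => if j = 0 then -1 else 1

lemma Φ2_nat (m : ℕ) : Φ2 (m : ZMod 2) = 1 - 2 * (if 2 ∣ m then 1 else 0) := by
  unfold Φ2
  by_cases h : 2 ∣ m
  · rw [if_pos ((ZMod.natCast_eq_zero_iff m 2).2 h), if_pos h]; norm_num
  · rw [if_neg (fun h' => h ((ZMod.natCast_eq_zero_iff m 2).1 h')), if_neg h]; norm_num

lemma Φ2_sum : ∑ j, Φ2 j = 0 := by
  rw [← full_sum Φ2, Finset.sum_range_succ, Finset.sum_range_succ]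
  rw [Φ2_nat, Φ2_nat]; norm_num

lemma conv_eta {k : ℕ} (hk : 1 ≤ k) :
    ∑ x ∈ k.divisorsAntidiagonal, (((ArithmeticFunction.moebius x.1 : ℤ) : ℂ) *
      (1 : DirichletCharacter ℂ 1) (x.1 : ZMod 1)) * Φ2 (x.2 : ZMod 2) =
      if k = 1 then 1 else if k = 2 then -2 else 0 := by
  have h1 : ∀ x ∈ k.divisorsAntidiagonal, (((ArithmeticFunction.moebius x.1 : ℤ) : ℂ) *
      (1 : DirichletCharacter ℂ 1) (x.1 : ZMod 1)) * Φ2 (x.2 : ZMod 2) =
      ((ArithmeticFunction.moebius x.1 : ℤ) : ℂ) -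
        2 * (if 2 ∣ x.2 then ((ArithmeticFunction.moebius x.1 : ℤ) : ℂ) else 0) := by
    intro x _
    rw [Φ2_nat, MulChar.one_apply (isUnit_of_subsingleton _)]
    split_ifs <;> ring
  rw [Finset.sum_congr rfl h1, Finset.sum_sub_distrib, mu_sum hk, ← Finset.mul_sum]
  have h2 : ∑ x ∈ k.divisorsAntidiagonal, (if 2 ∣ x.2 then ((ArithmeticFunction.moebius x.1 : ℤ) : ℂ) else 0) =
      if k = 2 then 1 else 0 := by
    rw [← Finset.sum_filter]
    by_cases hk2 : 2 ∣ k
    · obtain ⟨j, rfl⟩ := hk2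
      have hj : 1 ≤ j := by omega
      have h3 : ∑ x ∈ j.divisorsAntidiagonal, ((ArithmeticFunction.moebius x.1 : ℤ) : ℂ) =
          ∑ x ∈ (2 * j).divisorsAntidiagonal.filter (fun x => 2 ∣ x.2),
            ((ArithmeticFunction.moebius x.1 : ℤ) : ℂ) := by
        refine Finset.sum_bij' (fun x _ => (x.1, 2 * x.2)) (fun x _ => (x.1, x.2 / 2)) ?_ ?_ ?_ ?_ ?_
        · intro x hx
          rw [Nat.mem_divisorsAntidiagonal] at hx
          rw [Finset.mem_filter, Nat.mem_divisorsAntidiagonal]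
          refine ⟨⟨?_, by omega⟩, Dvd.intro _ rfl⟩
          rw [← hx.1]; ring
        · intro x hx
          rw [Finset.mem_filter, Nat.mem_divisorsAntidiagonal] at hx
          rw [Nat.mem_divisorsAntidiagonal]
          obtain ⟨⟨h4, _⟩, ⟨t, ht⟩⟩ := hx
          refine ⟨?_, by omega⟩
          rw [ht] at h4 ⊢
          rw [Nat.mul_div_cancel_left _ (by norm_num)]
          have : 2 * (x.1 * t) = 2 * j := by rw [← h4]; ring
          show x.1 * t = j
          omega
        · intro x _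
          ext <;> simp
        · intro x hx
          rw [Finset.mem_filter] at hx
          obtain ⟨_, ⟨t, ht⟩⟩ := hx
          ext
          · rfl
          · simp [ht]
        · intro x _; rfl
      rw [← h3, mu_sum hj]
      exact if_congr (by omega) rfl rfl
    · rw [Finset.sum_eq_zero, if_neg (by rintro rfl; exact hk2 (dvd_refl 2))]
      intro x hx
      rw [Finset.mem_filter, Nat.mem_divisorsAntidiagonal] at hx
      exact absurd (hx.1.1 ▸ Dvd.dvd.mul_left hx.2 x.1) hk2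
  rw [h2]
  by_cases h : k = 1
  · subst h; norm_num
  · by_cases h' : k = 2
    · subst h'; norm_num
    · simp [h, h']

lemma eta_eq {s : ℂ} (hs : s ≠ 1) :
    ZMod.LFunction Φ2 s = (1 - 2 * (2 : ℂ) ^ (-s)) * riemannZeta s := by
  have hT1 : ∀ s : ℂ, s ≠ 1 → DirichletCharacter.LFunctionTrivChar₁ 1 s = (s - 1) * riemannZeta s := by
    intro s hs
    unfold DirichletCharacter.LFunctionTrivChar₁
    rw [Function.update_of_ne hs, show DirichletCharacter.LFunctionTrivChar 1 s = riemannZeta s from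
      congrFun DirichletCharacter.LFunction_modOne_eq s]
  have hA : AnalyticOnNhd ℂ (fun s : ℂ => (s - 1) * ZMod.LFunction Φ2 s) Set.univ := by
    refine DifferentiableOn.analyticOnNhd ?_ isOpen_univ
    exact ((differentiable_id.sub_const 1).mul
      (ZMod.differentiable_LFunction_of_sum_zero Φ2_sum)).differentiableOn
  have hB : AnalyticOnNhd ℂ (fun s : ℂ => (1 - 2 * (2 : ℂ) ^ (-s)) *
      DirichletCharacter.LFunctionTrivChar₁ 1 s) Set.univ := by
    refine DifferentiableOn.analyticOnNhd ?_ isOpen_univ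
    refine (Differentiable.mul ?_ (DirichletCharacter.differentiable_LFunctionTrivChar₁ 1)).differentiableOn
    intro s
    exact (differentiableAt_const _).sub ((differentiableAt_const _).mul
      ((differentiableAt_id.neg).const_cpow (Or.inl two_ne_zero)))
  have hEq : Set.EqOn (fun s : ℂ => (s - 1) * ZMod.LFunction Φ2 s)
      (fun s : ℂ => (1 - 2 * (2 : ℂ) ^ (-s)) * DirichletCharacter.LFunctionTrivChar₁ 1 s) Set.univ := by
    refine AnalyticOnNhd.eqOn_of_preconnected_of_eventuallyEq (z₀ := 2) hA hB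
      isPreconnected_univ (Set.mem_univ _) ?_
    have : {s : ℂ | 1 < s.re} ∈ 𝓝 (2 : ℂ) :=
      (isOpen_lt continuous_const Complex.continuous_re).mem_nhds (by simp)
    filter_upwards [this] with s hs
    change 1 < s.re at hs
    have hs1 : s ≠ 1 := by rintro rfl; simp at hs
    rw [hT1 s hs1, ZMod.LFunction_eq_LSeries Φ2 hs]
    have h1 : LSeries (fun n : ℕ => Φ2 (n : ZMod 2)) s =
        riemannZeta s - 2 * ((2 : ℂ) ^ (-s) * riemannZeta s) := by
      have hz := LSeriesSummable_one_iff.2 hs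
      have hz1 : HasSum (fun n : ℕ => LSeries.term 1 s n) (riemannZeta s) := by
        rw [← LSeries_one_eq_riemannZeta hs]
        exact hz.hasSum
      have he : HasSum (fun n : ℕ => if 2 ∣ n then LSeries.term 1 s n else 0)
          ((2 : ℂ) ^ (-s) * riemannZeta s) := by
        have h2 := hz1.mul_left ((2 : ℂ) ^ (-s))
        have hinj : Function.Injective (fun n : ℕ => 2 * n) := fun a b h => by
          simpa using h
        have h3 := (hinj.hasSum_iff (f := fun n : ℕ => if 2 ∣ n then LSeries.term 1 s n else 0)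
          (a := (2 : ℂ) ^ (-s) * riemannZeta s) (fun n hn => by
            rw [if_neg]
            rintro ⟨t, rfl⟩
            exact hn ⟨t, rfl⟩)).1
        refine h3 (h2.congr_fun ?_)
        intro n
        simp only [Function.comp]
        rw [if_pos (Dvd.intro _ rfl)]
        rcases Nat.eq_zero_or_pos n with h | h
        · subst h; simp
        · rw [LSeries.term_of_ne_zero (by omega), LSeries.term_of_ne_zero (by omega)]
          simp only [Pi.one_apply]
          rw [Nat.cast_mul, Complex.natCast_mul_natCast_cpow, Complex.cpow_neg]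
          push_cast
          field_simp
      have h4 := hz1.sub (he.mul_left 2)
      refine HasSum.tsum_eq (h4.congr_fun fun n => ?_)
      rcases Nat.eq_zero_or_pos n with h | h
      · subst h; simp
      · rw [LSeries.term_of_ne_zero (by omega), LSeries.term_of_ne_zero (by omega), Φ2_nat]
        split_ifs <;> simp only [Pi.one_apply] <;> ring
    rw [h1]; ring
  have := hEq (Set.mem_univ s)
  simp only at this
  rw [hT1 s hs] at this
  have hs' : s - 1 ≠ 0 := sub_ne_zero.2 hs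
  apply mul_left_cancel₀ hs'
  rw [this]; ring

end TH949.MS
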