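import Pool.Agent.TH949.MS.D

open Filter Topology Set MeasureTheory Finset

namespace TH949.MS

/-- `μ(n)` as a complex number. -/
noncomputable def mu (n : ℕ) : ℂ := ((ArithmeticFunction.moebius n : ℤ) : ℂ)

lemma two_pow_le {p : ℝ} (hp : 1 < p) : (2 : ℝ) ^ (1 + 1 / p) ≤ 4 := by
  have hp1 : 1 / p ≤ 1 := by rw [div_le_one (by linarith)]; linarith
  calc (2 : ℝ) ^ (1 + 1 / p) ≤ (2 : ℝ) ^ (2 : ℝ) :=
        Real.rpow_le_rpow_of_exponent_le (by norm_num) (by linarith)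
    _ = 4 := by norm_num

lemma Lp_lower {R : ℕ} (hR : 1 ≤ R) {p : ℝ} (hp : 1 < p) : 1 / 4 ≤ Lp mu R p := by
  have h := fejer_le mu R 2 0 hp (by norm_num)
  have h1 : ∑ n ∈ Finset.Icc 1 R, mu n * ee (n * (0 : ℝ)) * ((2 - n : ℕ) : ℂ) = 1 := by
    rw [Finset.sum_eq_single 1]
    · simp [mu, ee]
    · intro n hn h1
      have : 2 - n = 0 := by rw [Finset.mem_Icc] at hn; omega
      rw [this]; simp
    · intro h; exact absurd (Finset.mem_Icc.2 ⟨le_refl _, hR⟩) h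
  rw [h1, norm_one] at h
  have h2 : (((2 : ℕ) : ℝ)) ^ (1 + 1 / p) * Lp mu R p ≤ 4 * Lp mu R p :=
    mul_le_mul_of_nonneg_right (by exact_mod_cast two_pow_le hp) (Lp_nonneg _ _ _)
  linarith

theorem TT_char {q : ℕ} [NeZero q] (Φ : ZMod q → ℂ) (hΦ1 : ∀ j, ‖Φ j‖ ≤ 1) (R : ℕ) {p : ℝ} (hp : 1 < p)
    (N : ℕ) (hN : 1 ≤ N) : ‖TT (fun n => mu n * Φ (n : ZMod q)) R (N : ℝ)‖ ≤
      (q * Lp mu R p) * (N : ℝ) ^ (1 + 1 / p) := by
  obtain ⟨w, hwq, hw⟩ := char_exp Φ hΦ1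
  rw [TT_nat]
  have h1 : ∑ n ∈ Finset.Icc 1 R, mu n * Φ (n : ZMod q) * ((N - n : ℕ) : ℂ) =
      ∑ a, w a * ∑ n ∈ Finset.Icc 1 R, mu n * ee (n * ((a.val : ℝ) / q)) * ((N - n : ℕ) : ℂ) := by
    simp_rw [Finset.mul_sum]
    rw [Finset.sum_comm]
    refine Finset.sum_congr rfl fun n _ => ?_
    rw [hw n, Finset.mul_sum, Finset.sum_mul]
    refine Finset.sum_congr rfl fun a _ => ?_
    ring
  rw [h1]
  have hL := Lp_nonneg mu R p
  calc _ ≤ _ := norm_sum_le _ _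
    _ ≤ ∑ a, ‖w a‖ * (Lp mu R p * (N : ℝ) ^ (1 + 1 / p)) := by
      refine Finset.sum_le_sum fun a _ => ?_
      rw [norm_mul]
      refine mul_le_mul_of_nonneg_left ?_ (norm_nonneg _)
      rw [mul_comm]
      exact fejer_le mu R N _ hp hN
    _ = (∑ a, ‖w a‖) * (Lp mu R p * (N : ℝ) ^ (1 + 1 / p)) := by rw [Finset.sum_mul]
    _ ≤ q * (Lp mu R p * (N : ℝ) ^ (1 + 1 / p)) := mul_le_mul_of_nonneg_right hwq (by positivity)
    _ = _ := by ring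

lemma J_err {ρ : ℂ} (hρ : 0 < ρ.re) {z : ℝ} (hz : 0 < z) (hz1 : 1 ≤ 2 * z) :
    ‖JJ ρ z - 1 / (ρ * (ρ + 1))‖ ≤ z ^ (-ρ.re) * (3 * (1 + ‖ρ‖)) / (‖ρ‖ * ‖ρ + 1‖) := by
  have hρ0 : ρ ≠ 0 := by intro h; rw [h] at hρ; simp at hρ
  have hρ1 : ρ + 1 ≠ 0 := by
    intro h
    have : (ρ + 1).re = 0 := by rw [h]; simp
    simp at this; linarith
  have hzc : (z : ℂ) ≠ 0 := by exact_mod_cast hz.ne'
  have h1 : JJ ρ z - 1 / (ρ * (ρ + 1)) = (z : ℂ) ^ (-ρ) * (ρ * (z : ℂ)⁻¹ - (ρ + 1)) / (ρ * (ρ + 1)) := by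
    unfold JJ
    rw [show -ρ - 1 = -ρ + -1 by ring, Complex.cpow_add _ _ hzc, Complex.cpow_neg_one]
    field_simp
    ring
  rw [h1, norm_div, norm_mul, norm_mul]
  refine div_le_div_of_nonneg_right ?_ (by positivity)
  rw [norm_cpow_nat' hz, Complex.neg_re]
  refine mul_le_mul_of_nonneg_left ?_ (by positivity)
  have h2 : ‖(z : ℂ)⁻¹‖ ≤ 2 := by
    rw [norm_inv, Complex.norm_real, Real.norm_of_nonneg hz.le, inv_le_comm₀ hz (by norm_num)]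
    linarith
  calc ‖ρ * (z : ℂ)⁻¹ - (ρ + 1)‖ ≤ ‖ρ * (z : ℂ)⁻¹‖ + ‖ρ + 1‖ := norm_sub_le _ _
    _ ≤ ‖ρ‖ * 2 + (‖ρ‖ + 1) := by
      refine add_le_add ?_ ?_
      · rw [norm_mul]; exact mul_le_mul_of_nonneg_left h2 (norm_nonneg _)
      · refine (norm_add_le _ _).trans ?_
        rw [norm_one]
    _ ≤ _ := by linarith [norm_nonneg ρ]

/-- the constant -/
noncomputable def kk (q : ℕ) (ρ : ℂ) : ℝ := ρ.re * (1 - ρ.re) / (200 * (q : ℝ) ^ 2 * (1 + ‖ρ‖) ^ 3)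

theorem core {q : ℕ} [NeZero q] (Φ : ZMod q → ℂ) (hΦ1 : ∀ j, ‖Φ j‖ ≤ 1) {b : ℕ → ℂ} {ε : ℂ}
    (hcb : ∀ k : ℕ, 1 ≤ k → ∑ x ∈ k.divisorsAntidiagonal, (mu x.1 * Φ (x.1 : ZMod q)) * b x.2 =
      if k = 1 then 1 else if k = 2 then ε else 0) {ρ : ℂ} (hρ : 0 < ρ.re) (hρ1 : ρ.re < 1)
    {B : ℝ} (hB0 : 0 ≤ B) (hB : B ≤ 2 * q)
    (hb : ∀ N : ℕ, ‖∑ m ∈ Finset.Icc 1 N, b m * (m : ℂ) ^ (-ρ)‖ ≤
      (B + B * (‖ρ‖ / ρ.re)) * ((N + 1 : ℕ) : ℝ) ^ (-ρ.re))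
    (hε : ‖ε‖ ≤ 2) (hE : (1 - ρ.re) / 2 ≤ ‖1 + ε * (2 : ℂ) ^ (-ρ)‖)
    (R : ℕ) (hR : 1 ≤ R) {p : ℝ} (hp : 1 < p) :
    kk q ρ / p * (R : ℝ) ^ (ρ.re - 1 / p) ≤ Lp mu R p := by
  have hρ0 : ρ ≠ 0 := by intro h; rw [h] at hρ; simp at hρ
  have hρ2 : ρ + 1 ≠ 0 := by
    intro h
    have : (ρ + 1).re = 0 := by rw [h]; simp
    simp at this; linarith
  have hn0 : 0 < ‖ρ‖ := norm_pos_iff.2 hρ0
  have hn1 : 0 < ‖ρ + 1‖ := norm_pos_iff.2 hρ2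
  have hn2 : ‖ρ + 1‖ ≤ 1 + ‖ρ‖ := by
    refine (norm_add_le _ _).trans ?_
    rw [norm_one]; linarith
  have hq1 : (1 : ℝ) ≤ q := by exact_mod_cast NeZero.pos q
  have hp0 : 0 < p := by linarith
  have hRr : (1 : ℝ) ≤ R := by exact_mod_cast hR
  have hRr0 : (0 : ℝ) < R := by linarith
  have hpow : 0 ≤ (R : ℝ) ^ (ρ.re - 1 / p) := by positivity
  have hLp := Lp_nonneg mu R p
  have hb1 : 0 < 1 - ρ.re := by linarith
  have hk0 : 0 ≤ kk q ρ := by unfold kk; positivity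
  set E : ℝ := ‖1 + ε * (2 : ℂ) ^ (-ρ)‖ with hEdef
  have hE0 : 0 < E := by linarith
  rcases le_or_gt (36 * (1 + ‖ρ‖) / (1 - ρ.re)) ((R : ℝ) ^ ρ.re) with h | h
  · have hR2 : 2 ≤ R := by
      by_contra hcon
      have : R = 1 := by omega
      rw [this] at h
      rw [Nat.cast_one, Real.one_rpow, div_le_one hb1] at h
      linarith
    have h0 := identity (c := fun n => mu n * Φ (n : ZMod q)) hcb hρ hR2
    have hC : 0 ≤ B + B * (‖ρ‖ / ρ.re) := by positivity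
    have h5 := upper hρ hC hb hR hp (mul_nonneg (by linarith) hLp) (TT_char Φ hΦ1 R hp)
    rw [h0] at h5
    -- the main term
    set L : ℂ := (1 + ε * (2 : ℂ) ^ (-ρ)) * (1 / (ρ * (ρ + 1))) with hL
    have hLn : ‖L‖ = E / (‖ρ‖ * ‖ρ + 1‖) := by
      rw [hL, norm_mul, norm_div, norm_one, norm_mul]; ring
    have hdiff : ‖JJ ρ R + ε * (2 : ℂ) ^ (-ρ) * JJ ρ (R / 2) - L‖ ≤
        (R : ℝ) ^ (-ρ.re) * (9 * (1 + ‖ρ‖)) / (‖ρ‖ * ‖ρ + 1‖) := by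
      have e1 := J_err hρ (z := R) hRr0 (by linarith)
      have e2 := J_err hρ (z := R / 2) (by positivity) (by linarith)
      have e3 : JJ ρ R + ε * (2 : ℂ) ^ (-ρ) * JJ ρ (R / 2) - L =
          (JJ ρ R - 1 / (ρ * (ρ + 1))) + ε * (2 : ℂ) ^ (-ρ) * (JJ ρ (R / 2) - 1 / (ρ * (ρ + 1))) := by
        rw [hL]; ring
      have e4 : ‖(2 : ℂ) ^ (-ρ)‖ = (2 : ℝ) ^ (-ρ.re) := by
        have := norm_cpow_nat' (t := (2 : ℝ)) (by norm_num) (-ρ)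
        simpa using this
      have e5 : ((R : ℝ) / 2) ^ (-ρ.re) * (2 : ℝ) ^ (-ρ.re) = (R : ℝ) ^ (-ρ.re) := by
        rw [← Real.mul_rpow (by positivity) (by norm_num)]
        congr 1; field_simp
      rw [e3]
      calc _ ≤ _ := norm_add_le _ _
        _ ≤ (R : ℝ) ^ (-ρ.re) * (3 * (1 + ‖ρ‖)) / (‖ρ‖ * ‖ρ + 1‖) + 2 * (2 : ℝ) ^ (-ρ.re) *
            (((R : ℝ) / 2) ^ (-ρ.re) * (3 * (1 + ‖ρ‖)) / (‖ρ‖ * ‖ρ + 1‖)) := by
          refine add_le_add e1 ?_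
          rw [norm_mul, norm_mul, e4]
          refine mul_le_mul (mul_le_mul_of_nonneg_right hε (by positivity)) e2 (norm_nonneg _)
            (by positivity)
        _ = (R : ℝ) ^ (-ρ.re) * (3 * (1 + ‖ρ‖)) / (‖ρ‖ * ‖ρ + 1‖) +
            2 * (((R : ℝ) / 2) ^ (-ρ.re) * (2 : ℝ) ^ (-ρ.re)) * (3 * (1 + ‖ρ‖)) / (‖ρ‖ * ‖ρ + 1‖) := by
          ring
        _ = _ := by rw [e5]; ring
    have hRinv : (R : ℝ) ^ (-ρ.re) * (R : ℝ) ^ ρ.re = 1 := by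
      rw [← Real.rpow_add hRr0]; simp
    have hsmall : (R : ℝ) ^ (-ρ.re) * (9 * (1 + ‖ρ‖)) ≤ E / 2 := by
      have e1 : (R : ℝ) ^ (-ρ.re) * (36 * (1 + ‖ρ‖) / (1 - ρ.re)) ≤ 1 := by
        calc _ ≤ (R : ℝ) ^ (-ρ.re) * (R : ℝ) ^ ρ.re := mul_le_mul_of_nonneg_left h (by positivity)
          _ = 1 := hRinv
      have e2 : (R : ℝ) ^ (-ρ.re) * (9 * (1 + ‖ρ‖)) =
          (R : ℝ) ^ (-ρ.re) * (36 * (1 + ‖ρ‖) / (1 - ρ.re)) * ((1 - ρ.re) / 4) := by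
        field_simp; ring
      rw [e2]
      calc _ ≤ 1 * ((1 - ρ.re) / 4) := mul_le_mul_of_nonneg_right e1 (by linarith)
        _ ≤ E / 2 := by linarith
    have hmain : E / 2 / (‖ρ‖ * ‖ρ + 1‖) ≤ ‖JJ ρ R + ε * (2 : ℂ) ^ (-ρ) * JJ ρ (R / 2)‖ := by
      have e1 : ‖L‖ ≤ ‖JJ ρ R + ε * (2 : ℂ) ^ (-ρ) * JJ ρ (R / 2)‖ +
          ‖JJ ρ R + ε * (2 : ℂ) ^ (-ρ) * JJ ρ (R / 2) - L‖ := by
        have := norm_sub_norm_le L (JJ ρ R + ε * (2 : ℂ) ^ (-ρ) * JJ ρ (R / 2))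
        rw [norm_sub_rev] at this
        linarith
      have e2 : ‖JJ ρ R + ε * (2 : ℂ) ^ (-ρ) * JJ ρ (R / 2) - L‖ ≤ E / 2 / (‖ρ‖ * ‖ρ + 1‖) :=
        hdiff.trans (div_le_div_of_nonneg_right hsmall (by positivity))
      rw [hLn] at e1
      have e3 : E / (‖ρ‖ * ‖ρ + 1‖) = E / 2 / (‖ρ‖ * ‖ρ + 1‖) + E / 2 / (‖ρ‖ * ‖ρ + 1‖) := by ring
      linarith
    have hCle : B + B * (‖ρ‖ / ρ.re) ≤ 2 * q * ((1 + ‖ρ‖) / ρ.re) := by
      have e1 : B + B * (‖ρ‖ / ρ.re) = B * (1 + ‖ρ‖ / ρ.re) := by ring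
      have e2 : 1 + ‖ρ‖ / ρ.re ≤ (1 + ‖ρ‖) / ρ.re := by
        rw [add_div]
        have : 1 ≤ 1 / ρ.re := by rw [le_div_iff₀ hρ]; linarith
        linarith
      rw [e1]
      exact mul_le_mul hB e2 (by positivity) (by positivity)
    have h6 : (1 - ρ.re) / 4 / ((1 + ‖ρ‖) * (1 + ‖ρ‖)) ≤
        4 * (q * Lp mu R p) * (2 * q * ((1 + ‖ρ‖) / ρ.re)) * p * (R : ℝ) ^ (1 / p - ρ.re) := by
      calc (1 - ρ.re) / 4 / ((1 + ‖ρ‖) * (1 + ‖ρ‖)) ≤ E / 2 / (‖ρ‖ * ‖ρ + 1‖) := by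
            refine div_le_div₀ (by positivity) (by linarith) (by positivity) ?_
            exact mul_le_mul (by linarith) hn2 hn1.le (by positivity)
        _ ≤ _ := hmain
        _ ≤ _ := h5
        _ ≤ _ := by gcongr
    have h7 : (R : ℝ) ^ (1 / p - ρ.re) * (R : ℝ) ^ (ρ.re - 1 / p) = 1 := by
      rw [← Real.rpow_add hRr0, show 1 / p - ρ.re + (ρ.re - 1 / p) = 0 by ring, Real.rpow_zero]
    have h8 : (1 - ρ.re) / 4 / ((1 + ‖ρ‖) * (1 + ‖ρ‖)) * (R : ℝ) ^ (ρ.re - 1 / p) ≤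
        4 * (q * Lp mu R p) * (2 * q * ((1 + ‖ρ‖) / ρ.re)) * p := by
      calc _ ≤ (4 * (q * Lp mu R p) * (2 * q * ((1 + ‖ρ‖) / ρ.re)) * p * (R : ℝ) ^ (1 / p - ρ.re)) *
            (R : ℝ) ^ (ρ.re - 1 / p) := mul_le_mul_of_nonneg_right h6 hpow
        _ = 4 * (q * Lp mu R p) * (2 * q * ((1 + ‖ρ‖) / ρ.re)) * p *
            ((R : ℝ) ^ (1 / p - ρ.re) * (R : ℝ) ^ (ρ.re - 1 / p)) := by ring
        _ = _ := by rw [h7, mul_one]
    have h9 : kk q ρ / p * (R : ℝ) ^ (ρ.re - 1 / p) =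
        ((1 - ρ.re) / 4 / ((1 + ‖ρ‖) * (1 + ‖ρ‖)) * (R : ℝ) ^ (ρ.re - 1 / p)) *
          (ρ.re / (50 * (q : ℝ) ^ 2 * (1 + ‖ρ‖) * p)) := by
      unfold kk
      field_simp
      ring
    rw [h9]
    calc _ ≤ (4 * (q * Lp mu R p) * (2 * q * ((1 + ‖ρ‖) / ρ.re)) * p) *
          (ρ.re / (50 * (q : ℝ) ^ 2 * (1 + ‖ρ‖) * p)) := mul_le_mul_of_nonneg_right h8 (by positivity)
      _ = 8 / 50 * Lp mu R p := by field_simp; ring
      _ ≤ _ := by linarith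
  · have h3 : (R : ℝ) ^ (ρ.re - 1 / p) ≤ 36 * (1 + ‖ρ‖) / (1 - ρ.re) := by
      refine le_trans ?_ h.le
      exact Real.rpow_le_rpow_of_exponent_le hRr (by
        have : 0 < 1 / p := by positivity
        linarith)
    have h4 : kk q ρ / p ≤ (1 - ρ.re) / (200 * (1 + ‖ρ‖)) := by
      calc kk q ρ / p ≤ kk q ρ := div_le_self hk0 hp.le
        _ ≤ _ := by
          unfold kk
          refine div_le_div₀ (by positivity) ?_ (by positivity) ?_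
          · calc ρ.re * (1 - ρ.re) ≤ 1 * (1 - ρ.re) := mul_le_mul_of_nonneg_right hρ1.le hb1.le
              _ = _ := one_mul _
          · have e1 : (1 : ℝ) ≤ (q : ℝ) ^ 2 := one_le_pow₀ hq1
            have e2 : (1 + ‖ρ‖) ≤ (1 + ‖ρ‖) ^ 3 := le_self_pow₀ (by linarith) (by norm_num)
            calc 200 * (1 + ‖ρ‖) ≤ 200 * (1 * (1 + ‖ρ‖) ^ 3) := by linarith
              _ ≤ 200 * ((q : ℝ) ^ 2 * (1 + ‖ρ‖) ^ 3) := by gcongr
              _ = _ := by ring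
    calc _ ≤ (1 - ρ.re) / (200 * (1 + ‖ρ‖)) * (36 * (1 + ‖ρ‖) / (1 - ρ.re)) :=
          mul_le_mul h4 h3 hpow (by positivity)
      _ = 36 / 200 := by field_simp
      _ ≤ 1 / 4 := by norm_num
      _ ≤ _ := Lp_lower hR hp

lemma kk_le {q : ℕ} [NeZero q] {ρ : ℂ} (hρ : 0 < ρ.re) (hρ1 : ρ.re < 1) : kk q ρ ≤ kk 1 ρ := by
  have hq1 : (1 : ℝ) ≤ q := by exact_mod_cast NeZero.pos q
  have hb1 : 0 < 1 - ρ.re := by linarith
  unfold kk
  refine div_le_div_of_nonneg_left (by positivity) (by positivity) ?_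
  have e1 : (1 : ℝ) ≤ (q : ℝ) ^ 2 := one_le_pow₀ hq1
  have e2 : 0 < (1 + ‖ρ‖) ^ 3 := by positivity
  have e3 : (((1 : ℕ) : ℝ)) ^ 2 = 1 := by norm_num
  rw [e3]
  have := mul_le_mul_of_nonneg_right e1 e2.le
  linarith

lemma half_le {β : ℝ} (h0 : 0 < β) (h1 : β < 1) : (1 - β) / 2 ≤ 2 * (2 : ℝ) ^ (-β) - 1 := by
  have h2 : 2 * (2 : ℝ) ^ (-β) = Real.exp ((1 - β) * Real.log 2) := by
    rw [Real.rpow_def_of_pos (by norm_num : (0 : ℝ) < 2)]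
    nth_rewrite 1 [← Real.exp_log (by norm_num : (0 : ℝ) < 2)]
    rw [← Real.exp_add]
    congr 1; ring
  rw [h2]
  have h3 := Real.add_one_le_exp ((1 - β) * Real.log 2)
  have h4 : (1 / 2 : ℝ) ≤ Real.log 2 := by have := Real.log_two_gt_d9; linarith
  nlinarith

theorem zero_Lp {q : ℕ} [NeZero q] (χ : DirichletCharacter ℂ q) {ρ : ℂ} (hρ : 0 < ρ.re)
    (hρ1 : ρ.re < 1) (h0 : χ.LFunction ρ = 0) (R : ℕ) (hR : 1 ≤ R) {p : ℝ} (hp : 1 < p) :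
      kk q ρ / p * (R : ℝ) ^ (ρ.re - 1 / p) ≤ Lp mu R p := by
  have hne : ρ ≠ 1 := by rintro rfl; simp at hρ1
  have hq1 : (1 : ℝ) ≤ q := by exact_mod_cast NeZero.pos q
  by_cases hχ : χ = 1
  · subst hχ
    have h1 := DirichletCharacter.LFunctionTrivChar_eq_mul_riemannZeta (N := q) hne
    have h2 : DirichletCharacter.LFunctionTrivChar q ρ = 0 := h0
    rw [h1] at h2
    have h3 : (∏ p ∈ q.primeFactors, (1 - (p : ℂ) ^ (-ρ))) ≠ 0 := by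
      refine Finset.prod_ne_zero_iff.2 fun p hp h => ?_
      have hpp := Nat.prime_of_mem_primeFactors hp
      have h4 : (p : ℂ) ^ (-ρ) = 1 := by linear_combination -h
      have h5 : ‖(p : ℂ) ^ (-ρ)‖ = (p : ℝ) ^ (-ρ.re) := by
        have := norm_cpow_nat' (t := (p : ℝ)) (by exact_mod_cast hpp.pos) (-ρ)
        simpa using this
      rw [h4, norm_one] at h5
      have h6 : (p : ℝ) ^ (-ρ.re) < 1 := Real.rpow_lt_one_of_one_lt_of_neg (by exact_mod_cast hpp.one_lt)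
        (by linarith)
      linarith
    have h4 : riemannZeta ρ = 0 := by
      rcases mul_eq_zero.1 h2 with h | h
      · exact absurd h h3
      · exact h
    have h5 : ZMod.LFunction Φ2 ρ = 0 := by rw [eta_eq hne, h4, mul_zero]
    have hΦ2 : ∀ j, ‖Φ2 j‖ ≤ 1 := by
      intro j; unfold Φ2; split_ifs <;> simp
    have hb := zero_bound Φ2 hΦ2 Φ2_sum hρ h5
    have hmain := core (q := 1) (fun j => (1 : DirichletCharacter ℂ 1) j)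
      (fun j => DirichletCharacter.norm_le_one _ j) (b := fun m => Φ2 (m : ZMod 2))
      (ε := -2) (fun k hk => conv_eta hk) hρ hρ1 (B := ((2 : ℕ) : ℝ)) (by norm_num) (by norm_num) hb
      (by simp) ?_ R hR hp
    · refine le_trans ?_ hmain
      exact mul_le_mul_of_nonneg_right (div_le_div_of_nonneg_right (kk_le hρ hρ1) (by linarith))
        (by positivity)
    · have h7 : ‖(2 : ℂ) * (2 : ℂ) ^ (-ρ)‖ = 2 * (2 : ℝ) ^ (-ρ.re) := by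
        rw [norm_mul]
        have := norm_cpow_nat' (t := (2 : ℝ)) (by norm_num) (-ρ)
        simp only [Complex.ofReal_ofNat, Complex.neg_re] at this
        rw [this]; simp
      have h8 := half_le hρ hρ1
      have h9 := norm_sub_norm_le ((2 : ℂ) * (2 : ℂ) ^ (-ρ)) 1
      rw [h7, norm_one] at h9
      have h10 : ‖1 + -2 * (2 : ℂ) ^ (-ρ)‖ = ‖(2 : ℂ) * (2 : ℂ) ^ (-ρ) - 1‖ := by
        rw [← norm_neg]; congr 1; ring
      rw [h10]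
      linarith
  · have hb := zero_bound (fun j => χ j) (fun j => DirichletCharacter.norm_le_one _ j)
      (MulChar.sum_eq_zero_of_ne_one hχ) hρ h0
    refine core (fun j => χ j) (fun j => DirichletCharacter.norm_le_one _ j)
      (b := fun m => χ (m : ZMod q)) (ε := 0) (fun k hk => conv_char χ hk)
      hρ hρ1 (B := q) (by positivity) (by linarith) hb (by simp) ?_ R hR hp
    simp
    linarith

lemma Lp_le {c : ℕ → ℂ} {R : ℕ} {p V : ℝ} (hp : 1 < p) (hV : 0 ≤ V) (h : ∀ x, ‖FR c R x‖ ≤ V) :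
    Lp c R p ≤ V := by
  have hp0 : 0 < p := by linarith
  have hc1 : Continuous fun x : ℝ => ‖FR c R x‖ ^ p :=
    (cont_FR c R).norm.rpow_const fun x => Or.inr hp0.le
  have h1 : ∫ x in (0 : ℝ)..1, ‖FR c R x‖ ^ p ≤ V ^ p := by
    calc _ ≤ ∫ x in (0 : ℝ)..1, V ^ p := by
          refine intervalIntegral.integral_mono_on (by norm_num) (hc1.intervalIntegrable _ _)
            (by simp) fun x _ => ?_
          exact Real.rpow_le_rpow (norm_nonneg _) (h x) hp0.le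
      _ = V ^ p := by simp
  unfold Lp
  calc _ ≤ (V ^ p) ^ (1 / p) := Real.rpow_le_rpow
        (intervalIntegral.integral_nonneg (by norm_num) fun x _ => by positivity) h1 (by positivity)
    _ = V := by rw [← Real.rpow_mul hV, mul_one_div_cancel hp0.ne', Real.rpow_one]

theorem sup_lower {β c : ℝ} (hc : 0 < c) {R : ℕ} (hR : 1 ≤ R) (h : ∀ p : ℝ, 1 < p →
      c / p * (R : ℝ) ^ (β - 1 / p) ≤ Lp mu R p) :
    ∃ x : ℝ, c / 12 * (R : ℝ) ^ β / (1 + Real.log R) ≤ ‖FR mu R x‖ := by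
  have hRr : (1 : ℝ) ≤ R := by exact_mod_cast hR
  have hRr0 : (0 : ℝ) < R := by linarith
  have hlog : 0 ≤ Real.log R := Real.log_nonneg hRr
  have hpos : 0 < c / 12 * (R : ℝ) ^ β / (1 + Real.log R) := by positivity
  by_contra hcon
  push Not at hcon
  set p : ℝ := 2 + Real.log R with hp
  have hp1 : 1 < p := by rw [hp]; linarith
  have hp0 : 0 < p := by linarith
  have h1 := Lp_le hp1 hpos.le fun x => (hcon x).le
  have h2 := h p hp1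
  have h3 : Real.exp (-1) ≤ (R : ℝ) ^ (-(1 / p)) := by
    rw [Real.rpow_def_of_pos hRr0]
    refine Real.exp_le_exp.2 ?_
    have : Real.log R * (1 / p) ≤ 1 := by
      rw [mul_one_div, div_le_one hp0]; rw [hp]; linarith
    linarith
  have h4 : (1 : ℝ) / 3 < Real.exp (-1) := by
    have := Real.exp_one_lt_d9
    rw [Real.exp_neg, one_div]
    exact inv_strictAnti₀ (Real.exp_pos 1) (by linarith)
  have h5 : c / p * (R : ℝ) ^ (β - 1 / p) = c / p * (R : ℝ) ^ β * (R : ℝ) ^ (-(1 / p)) := by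
    rw [sub_eq_add_neg, Real.rpow_add hRr0]; ring
  rw [h5] at h2
  have h6 : c / (2 * (1 + Real.log R)) ≤ c / p :=
    div_le_div_of_nonneg_left hc.le hp0 (by rw [hp]; linarith)
  have h7 : 0 < (R : ℝ) ^ β := by positivity
  have h8 : c / (2 * (1 + Real.log R)) * (R : ℝ) ^ β * (1 / 3) ≤
      c / p * (R : ℝ) ^ β * (R : ℝ) ^ (-(1 / p)) := by
    gcongr
    linarith
  have h9 : c / (2 * (1 + Real.log R)) * (R : ℝ) ^ β * (1 / 3) =
      2 * (c / 12 * (R : ℝ) ^ β / (1 + Real.log R)) := by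
    field_simp; ring
  rw [h9] at h8
  linarith

end TH949.MS
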